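import Mathlib
import Pool.Agent.Lib.MP_0f5a55_nt.NR.A0
import Pool.Agent.Lib.MP_0f5a55_nt.HC.H18
open Complex MeasureTheory Set Filter Topology
open scoped Real ComplexConjugate NumberField

namespace HC2

open HC NR

variable {K : Type*} [Field K] [NumberField K]

/-- a rational integer which is coprime to `f` in the ring of integers is coprime to `f` -/
private theorem H19_int_coprime {m : ℤ} {f : ℕ}
    (h : IsCoprime (m : 𝓞 K) (f : 𝓞 K)) : IsCoprime m (f : ℤ) := by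
  rw [Int.isCoprime_iff_gcd_eq_one]
  set d : ℕ := Int.gcd m (f : ℤ) with hd
  have h1 : ((d : ℤ) : 𝓞 K) ∣ (m : 𝓞 K) := by
    obtain ⟨k, hk⟩ := Int.gcd_dvd_left m (f : ℤ)
    refine ⟨(k : 𝓞 K), ?_⟩
    rw [← Int.cast_mul, ← hk]
  have h2 : ((d : ℤ) : 𝓞 K) ∣ (f : 𝓞 K) := by
    obtain ⟨k, hk⟩ := Int.gcd_dvd_right m (f : ℤ)
    refine ⟨(k : 𝓞 K), ?_⟩
    rw [← Int.cast_mul, ← hk, Int.cast_natCast]
  have h3 : IsUnit ((d : ℤ) : 𝓞 K) := h.isUnit_of_dvd' h1 h2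
  have h4 : IsUnit (Algebra.norm ℤ ((d : ℤ) : 𝓞 K)) := h3.map (Algebra.norm ℤ)
  have h5 : Algebra.norm ℤ ((d : ℤ) : 𝓞 K) = (d : ℤ) ^ Module.finrank ℤ (𝓞 K) := by
    have := Algebra.norm_algebraMap (S := 𝓞 K) (d : ℤ)
    simpa using this
  rw [h5] at h4
  have h6 : Module.finrank ℤ (𝓞 K) ≠ 0 := by
    rw [NumberField.RingOfIntegers.rank]
    exact Module.finrank_pos.ne'
  have h7 := (isUnit_pow_iff h6).1 h4
  have h8 := Int.isUnit_iff_natAbs_eq.1 h7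
  simpa using h8

/-- the basic fact on orders -/
private theorem H19_ord_of_mul {f : ℕ} {α β : 𝓞 K} (hα : Ord f α)
    (hc : IsCoprime (Ideal.span {α}) (Ideal.span {(f : 𝓞 K)})) (hαβ : Ord f (α * β)) :
    Ord f β := by
  obtain ⟨m, k, hk⟩ := hα
  obtain ⟨m', k', hk'⟩ := hαβ
  have hc' : IsCoprime α (f : 𝓞 K) := by
    rwa [Ideal.isCoprime_span_singleton_iff] at hc
  have hm : IsCoprime (m : 𝓞 K) (f : 𝓞 K) := by
    obtain ⟨x, y, hxy⟩ := hc'
    refine ⟨x, y + x * k, ?_⟩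
    have : α = m + f * k := by rw [← hk]; ring
    rw [this] at hxy
    linear_combination hxy
  obtain ⟨s, t, hst⟩ := H19_int_coprime hm
  have hst' : (s : 𝓞 K) * m + t * f = 1 := by
    have := congrArg (Int.cast : ℤ → 𝓞 K) hst
    push_cast at this
    exact this
  refine ⟨s * m', s * k' - s * k * β + t * β, ?_⟩
  have h1 : α = m + f * k := by rw [← hk]; ring
  have h2 : α * β = m' + f * k' := by rw [← hk']; ring
  push_cast
  rw [h1] at h2
  linear_combination (s : 𝓞 K) * h2 - β * hst'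

omit [NumberField K] in
private theorem H19_ord_mul {f : ℕ} {α β : 𝓞 K} (hα : Ord f α) (hβ : Ord f β) : Ord f (α * β) := by
  obtain ⟨m, k, hk⟩ := hα
  obtain ⟨n, l, hl⟩ := hβ
  refine ⟨m * n, k * β + m * l, ?_⟩
  push_cast
  linear_combination β * hk + (m : 𝓞 K) * hl

/-- the generators in the order of a given ideal -/
private theorem H19_gens {f : ℕ} {α : 𝓞 K} (hα : Ord f α) (hc : Cop f (Ideal.span {α})) :
    Nat.card {β : 𝓞 K // Ord f β ∧ Ideal.span {β} = Ideal.span {α}} =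
      Nat.card {u : (𝓞 K)ˣ // Ord f (u : 𝓞 K)} := by
  have hα0 : α ≠ 0 := by
    intro h
    apply hc.1
    rw [h, Ideal.span_singleton_eq_bot]
  refine (Nat.card_congr (Equiv.ofBijective
    (fun u : {u : (𝓞 K)ˣ // Ord f (u : 𝓞 K)} =>
      (⟨α * (u.1 : 𝓞 K), H19_ord_mul hα u.2, ?_⟩ :
        {β : 𝓞 K // Ord f β ∧ Ideal.span {β} = Ideal.span {α}})) ⟨?_, ?_⟩)).symm
  · rw [Ideal.span_singleton_eq_span_singleton]
    exact (associated_mul_unit_left α _ u.1.isUnit)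
  · intro u v huv
    have h1 : α * (u.1 : 𝓞 K) = α * (v.1 : 𝓞 K) := congrArg Subtype.val huv
    exact Subtype.ext (Units.ext (mul_left_cancel₀ hα0 h1))
  · rintro ⟨β, hβ, hs⟩
    rw [Ideal.span_singleton_eq_span_singleton] at hs
    obtain ⟨u, hu⟩ := hs.symm
    refine ⟨⟨u, H19_ord_of_mul hα hc.2 (by rw [hu]; exact hβ)⟩, ?_⟩
    exact Subtype.ext hu

private theorem H19_finite_units [NumberField.IsTotallyComplex K] (h2 : Module.finrank ℚ K = 2) :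
    Finite (𝓞 K)ˣ := by
  have h1 : NumberField.InfinitePlace.nrComplexPlaces K = 1 := by
    have := NumberField.IsTotallyComplex.finrank (K := K)
    omega
  have h3 : NumberField.Units.rank K = 0 := by
    unfold NumberField.Units.rank
    rw [NumberField.InfinitePlace.card_eq_nrRealPlaces_add_nrComplexPlaces,
      NumberField.IsTotallyComplex.nrRealPlaces_eq_zero, h1]
  refine Finite.of_surjective (fun ζ : NumberField.Units.torsion K => (ζ : (𝓞 K)ˣ)) ?_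
  intro x
  obtain ⟨⟨ζ, e⟩, h, -⟩ := NumberField.Units.exist_unique_eq_mul_prod K x
  refine ⟨ζ, ?_⟩
  have : IsEmpty (Fin (NumberField.Units.rank K)) := by rw [h3]; infer_instance
  simp only [Finset.univ_eq_empty, Finset.prod_empty, mul_one] at h
  exact h.symm

theorem units_pos [NumberField.IsTotallyComplex K] (h2 : Module.finrank ℚ K = 2) (f : ℕ) :
    0 < Nat.card {u : (𝓞 K)ˣ // Ord f (u : 𝓞 K)} := by
  have := H19_finite_units (K := K) h2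
  have h1 : Nonempty {u : (𝓞 K)ˣ // Ord f (u : 𝓞 K)} := ⟨⟨1, 1, by simp⟩⟩
  exact Nat.card_pos

private theorem H19_val_nonneg {F : Fm} {N : ℕ} (hF : F.Pos N) (v : ℤ × ℤ) : 0 ≤ F.val v := by
  obtain ⟨hN, hA, hD⟩ := hF
  have h1 : 4 * F.A * F.val v = (2 * F.A * v.1 + F.B * v.2) ^ 2 + N * v.2 ^ 2 := by
    unfold Fm.val
    rw [← hD]; ring
  by_contra hcon
  push Not at hcon
  have h2 : 4 * F.A * F.val v < 0 := by
    apply mul_neg_of_pos_of_neg (by linarith) hcon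
  rw [h1] at h2
  have h3 : (0 : ℤ) ≤ (2 * F.A * v.1 + F.B * v.2) ^ 2 := sq_nonneg _
  have h4 : (0 : ℤ) ≤ N * v.2 ^ 2 := by positivity
  linarith

private theorem H19_val_eq_zero {F : Fm} {N : ℕ} (hF : F.Pos N) (v : ℤ × ℤ) (h : F.val v = 0) :
    v = 0 := by
  obtain ⟨hN, hA, hD⟩ := hF
  have h1 : 4 * F.A * F.val v = (2 * F.A * v.1 + F.B * v.2) ^ 2 + N * v.2 ^ 2 := by
    unfold Fm.val
    rw [← hD]; ring
  rw [h, mul_zero] at h1
  have h3 : (0 : ℤ) ≤ (2 * F.A * v.1 + F.B * v.2) ^ 2 := sq_nonneg _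
  have h4 : (0 : ℤ) ≤ N * v.2 ^ 2 := by positivity
  have h5 : (N : ℤ) * v.2 ^ 2 = 0 := by linarith
  have h6 : (2 * F.A * v.1 + F.B * v.2) ^ 2 = 0 := by linarith
  have hN' : (N : ℤ) ≠ 0 := by exact_mod_cast hN.ne'
  have h7 : v.2 = 0 := by
    rcases mul_eq_zero.1 h5 with h | h
    · exact absurd h hN'
    · exact pow_eq_zero_iff (two_ne_zero) |>.1 h
  have h8 : 2 * F.A * v.1 + F.B * v.2 = 0 := pow_eq_zero_iff (two_ne_zero) |>.1 h6
  rw [h7, mul_zero, add_zero] at h8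
  have h9 : v.1 = 0 := by
    rcases mul_eq_zero.1 h8 with h | h
    · exfalso; linarith
    · exact h
  exact Prod.ext h9 h7

private theorem H19_count {f : ℕ} {a : Ideal (𝓞 K)} (ha : a ≠ ⊥) {F : Fm} {N : ℕ}
    (hF : FormOf f a F) (hP : F.Pos N) (n : ℕ) :
    {v : ℤ × ℤ | F.val v = n}.ncard =
      Nat.card {α : 𝓞 K // Ord f α ∧ ∃ I : Ideal (𝓞 K), Ideal.absNorm I = n ∧
        Ideal.span {α} = I * a} := by
  obtain ⟨v₁, v₂, hlat, hnorm⟩ := hF
  have haN : Ideal.absNorm a ≠ 0 := by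
    rwa [Ne, Ideal.absNorm_eq_zero_iff]
  have haN' : (Ideal.absNorm a : ℤ) ≠ 0 := by exact_mod_cast haN
  have hto : ∀ v : ℤ × ℤ, F.val v = n → Ord f ((v.1 : 𝓞 K) * v₁ + (v.2 : 𝓞 K) * v₂) ∧
      ∃ I : Ideal (𝓞 K), Ideal.absNorm I = n ∧
        Ideal.span {(v.1 : 𝓞 K) * v₁ + (v.2 : 𝓞 K) * v₂} = I * a := by
    intro v hv
    have hmem : (v.1 : 𝓞 K) * v₁ + (v.2 : 𝓞 K) * v₂ ∈ lat f a := (hlat _).2 ⟨v.1, v.2, rfl⟩
    obtain ⟨h1, h2⟩ := hmem
    refine ⟨h2, ?_⟩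
    have h3 : a ∣ Ideal.span {(v.1 : 𝓞 K) * v₁ + (v.2 : 𝓞 K) * v₂} := by
      rw [Ideal.dvd_span_singleton]; exact h1
    obtain ⟨I, hI⟩ := h3
    refine ⟨I, ?_, by rw [hI, mul_comm]⟩
    have h4 := congrArg Ideal.absNorm hI
    rw [Ideal.absNorm_span_singleton, map_mul, hnorm v.1 v.2] at h4
    have h5 : F.val (v.1, v.2) = n := hv
    rw [h5, Int.natAbs_mul, Int.natAbs_natCast, Int.natAbs_natCast] at h4
    exact (mul_left_cancel₀ haN h4).symm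
  rw [← Nat.card_coe_set_eq]
  refine Nat.card_congr (Equiv.ofBijective
    (fun v : {v : ℤ × ℤ | F.val v = n} =>
      (⟨(v.1.1 : 𝓞 K) * v₁ + (v.1.2 : 𝓞 K) * v₂, hto v.1 v.2⟩ :
        {α : 𝓞 K // Ord f α ∧ ∃ I : Ideal (𝓞 K), Ideal.absNorm I = n ∧
          Ideal.span {α} = I * a})) ⟨?_, ?_⟩)
  · rintro ⟨v, hv⟩ ⟨w, hw⟩ hvw
    have h1 : (v.1 : 𝓞 K) * v₁ + (v.2 : 𝓞 K) * v₂ = (w.1 : 𝓞 K) * v₁ + (w.2 : 𝓞 K) * v₂ :=
      congrArg Subtype.val hvw
    have h2 : ((v.1 - w.1 : ℤ) : 𝓞 K) * v₁ + ((v.2 - w.2 : ℤ) : 𝓞 K) * v₂ = 0 := by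
      push_cast
      linear_combination h1
    have h3 := hnorm (v.1 - w.1) (v.2 - w.2)
    rw [h2, Algebra.norm_zero] at h3
    have h4 : F.val (v.1 - w.1, v.2 - w.2) = 0 := by
      rcases mul_eq_zero.1 h3.symm with h | h
      · exact absurd h haN'
      · exact h
    have h5 := H19_val_eq_zero hP _ h4
    have h6 : v.1 - w.1 = 0 := congrArg Prod.fst h5
    have h7 : v.2 - w.2 = 0 := congrArg Prod.snd h5
    exact Subtype.ext (Prod.ext (by linarith) (by linarith))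
  · rintro ⟨α, hα, I, hI, hs⟩
    have h1 : α ∈ a := by
      have : α ∈ Ideal.span {α} := Ideal.mem_span_singleton_self α
      rw [hs] at this
      exact Ideal.mul_le_right this
    obtain ⟨x, y, hxy⟩ := (hlat α).1 ⟨h1, hα⟩
    have h2 : F.val (x, y) = n := by
      have h3 := congrArg Ideal.absNorm hs
      rw [Ideal.absNorm_span_singleton, map_mul, hI, hxy, hnorm x y, Int.natAbs_mul,
        Int.natAbs_natCast, mul_comm] at h3
      have h4 := mul_right_cancel₀ haN h3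
      have h5 := H19_val_nonneg hP (x, y)
      rw [← h4]
      exact (Int.natAbs_of_nonneg h5).symm
    exact ⟨⟨(x, y), h2⟩, Subtype.ext hxy.symm⟩

omit [NumberField K] in
private theorem H19_finite_gens (h : Finite (𝓞 K)ˣ) (J : Ideal (𝓞 K)) :
    {α : 𝓞 K | Ideal.span {α} = J}.Finite := by
  by_cases he : ∃ α₀ : 𝓞 K, Ideal.span {α₀} = J
  · obtain ⟨α₀, rfl⟩ := he
    refine (Set.finite_range (fun u : (𝓞 K)ˣ => α₀ * (u : 𝓞 K))).subset ?_
    intro α hα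
    obtain ⟨u, hu⟩ := (Ideal.span_singleton_eq_span_singleton.1 hα).symm
    exact ⟨u, hu⟩
  · have : {α : 𝓞 K | Ideal.span {α} = J} = ∅ := by
      ext α
      simp only [Set.mem_ofPred_eq, Set.mem_empty_iff_false, iff_false]
      exact fun h => he ⟨α, h⟩
    rw [this]
    exact Set.finite_empty

private theorem H19_split (hu : Finite (𝓞 K)ˣ) {f : ℕ} {a : Ideal (𝓞 K)} (ha : a ≠ ⊥) (n : ℕ) :
    Nat.card {α : 𝓞 K // Ord f α ∧ ∃ I : Ideal (𝓞 K), Ideal.absNorm I = n ∧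
        Ideal.span {α} = I * a} =
      ∑ I ∈ (Ideal.finite_setOfPred_absNorm_eq (S := 𝓞 K) n).toFinset,
        Nat.card {α : 𝓞 K // Ord f α ∧ Ideal.span {α} = I * a} := by
  set J := (Ideal.finite_setOfPred_absNorm_eq (S := 𝓞 K) n).toFinset with hJ
  have hmemJ : ∀ I, I ∈ J ↔ Ideal.absNorm I = n := by
    intro I
    rw [hJ, Set.Finite.mem_toFinset]
    rfl
  have hfin : ∀ I : J, Finite {α : 𝓞 K // Ord f α ∧ Ideal.span {α} = (I : Ideal (𝓞 K)) * a} := by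
    intro I
    exact ((H19_finite_gens hu ((I : Ideal (𝓞 K)) * a)).subset
      (fun α hα => hα.2 : {α : 𝓞 K | Ord f α ∧ Ideal.span {α} = (I : Ideal (𝓞 K)) * a} ⊆ _)).to_subtype
  rw [← Finset.sum_coe_sort J (fun I => Nat.card {α : 𝓞 K // Ord f α ∧ Ideal.span {α} = I * a}),
    ← Nat.card_sigma]
  refine (Nat.card_congr (Equiv.ofBijective
    (fun p : (Σ I : J, {α : 𝓞 K // Ord f α ∧ Ideal.span {α} = (I : Ideal (𝓞 K)) * a}) =>
      (⟨p.2.1, p.2.2.1, p.1.1, (hmemJ _).1 p.1.2, p.2.2.2⟩ :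
        {α : 𝓞 K // Ord f α ∧ ∃ I : Ideal (𝓞 K), Ideal.absNorm I = n ∧
        Ideal.span {α} = I * a})) ⟨?_, ?_⟩)).symm
  · rintro ⟨⟨I, hI⟩, α, hα, hαI⟩ ⟨⟨I', hI'⟩, α', hα', hαI'⟩ h
    have h1 : α = α' := congrArg Subtype.val h
    subst h1
    have h2 : I = I' := mul_right_cancel₀ ha (hαI.symm.trans hαI')
    subst h2
    rfl
  · rintro ⟨α, hα, I, hI, hs⟩
    exact ⟨⟨⟨I, (hmemJ I).2 hI⟩, α, hα, hs⟩, rfl⟩

/-- Row H19. Coefficients at n prime to f in terms of the forms. -/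
theorem count_cop [NumberField.IsTotallyComplex K] (h2 : Module.finrank ℚ K = 2) {f : ℕ}
    {ψ : Ideal (𝓞 K) →*₀ ℂ} (h : RC f ψ) {T : Finset (Ideal (𝓞 K))} {F : Ideal (𝓞 K) → Fm}
    (hT : Forms f T F) {n : ℕ} (hn : 0 < n) (hc : n.Coprime f) :
    ((Nat.card {u : (𝓞 K)ˣ // Ord f (u : 𝓞 K)} : ℕ) : ℂ) * ac ψ n =
      ∑ a ∈ T, conj (ψ a) * (({v : ℤ × ℤ | (F a).val v = n}.ncard : ℕ) : ℂ) := by
  have hu := H19_finite_units (K := K) h2
  obtain ⟨hR, hFm⟩ := hT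
  set J := (Ideal.finite_setOfPred_absNorm_eq (S := 𝓞 K) n).toFinset with hJ
  have hmemJ : ∀ I, I ∈ J ↔ Ideal.absNorm I = n := by
    intro I
    rw [hJ, Set.Finite.mem_toFinset]
    rfl
  have hac : ac ψ n = ∑ I ∈ J, ψ I := by
    unfold ac
    rw [← finsum_mem_coe_finset]
    refine finsum_congr fun I => ?_
    refine finsum_congr_Prop ?_ (fun _ => rfl)
    rw [Finset.mem_coe, hmemJ]
  have hcop : ∀ I ∈ J, Cop f I := by
    intro I hI
    rw [hmemJ] at hI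
    refine (cop_iff h2 h.pos).2 ⟨?_, by rw [hI]; exact hc⟩
    intro hb
    rw [hb, Ideal.absNorm_bot] at hI
    omega
  have hmul : ∀ I a : Ideal (𝓞 K), Cop f I → Cop f a → Cop f (I * a) := by
    intro I a hI ha
    exact ⟨mul_ne_zero hI.1 ha.1, hI.2.mul_left ha.2⟩
  have hcount : ∀ a ∈ T, (({v : ℤ × ℤ | (F a).val v = n}.ncard : ℕ) : ℂ) =
      ∑ I ∈ J, ((Nat.card {α : 𝓞 K // Ord f α ∧ Ideal.span {α} = I * a} : ℕ) : ℂ) := by
    intro a ha
    rw [H19_count (hR.1 a ha).1 (hFm a ha).1 (hFm a ha).2 n, H19_split hu (hR.1 a ha).1 n,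
      Nat.cast_sum]
  rw [hac, Finset.mul_sum]
  have hstep : ∑ a ∈ T, conj (ψ a) * (({v : ℤ × ℤ | (F a).val v = n}.ncard : ℕ) : ℂ) =
      ∑ I ∈ J, ∑ a ∈ T, conj (ψ a) *
        ((Nat.card {α : 𝓞 K // Ord f α ∧ Ideal.span {α} = I * a} : ℕ) : ℂ) := by
    rw [Finset.sum_comm]
    refine Finset.sum_congr rfl fun a ha => ?_
    rw [hcount a ha, Finset.mul_sum]
  rw [hstep]
  refine Finset.sum_congr rfl fun I hI => ?_
  obtain ⟨a₀, ⟨ha₀, α₀, hα₀, hcα₀, hIa₀⟩, huniq⟩ := exists_unique_mul h2 h.pos hR (hcop I hI)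
  rw [Finset.sum_eq_single_of_mem a₀ ha₀]
  · rw [hIa₀, H19_gens hα₀ hcα₀]
    have h1 : ψ I * ψ a₀ = 1 := by
      rw [← map_mul, hIa₀]
      exact h.triv α₀ hα₀ hcα₀
    have h3 : ‖ψ a₀‖ = 1 := h.cop a₀ (hR.1 a₀ ha₀)
    have h4 : ψ a₀ * conj (ψ a₀) = 1 := by
      rw [Complex.mul_conj, Complex.normSq_eq_norm_sq, h3]; simp
    have h5 : ψ I = conj (ψ a₀) := by
      have h6 : ψ a₀ ≠ 0 := fun h0 => by rw [h0, zero_mul] at h4; exact zero_ne_one h4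
      apply mul_right_cancel₀ h6
      rw [h1, ← h4, mul_comm]
    rw [h5, mul_comm]
  · intro a ha hne
    have : IsEmpty {α : 𝓞 K // Ord f α ∧ Ideal.span {α} = I * a} := by
      constructor
      rintro ⟨α, hα, hs⟩
      apply hne
      refine huniq a ⟨ha, α, hα, ?_, hs.symm⟩
      rw [hs]
      exact hmul I a (hcop I hI) (hR.1 a ha)
    rw [Nat.card_of_isEmpty]
    simp

end HC2
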