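import Pool.Agent.Lib.MP_0f5a55_nt.NR.A11
import Pool.Agent.Lib.MP_0f5a55_nt.NR.C6
import Pool.Agent.Lib.MP_0f5a55_nt.NR.C3
import Pool.Agent.Lib.MP_0f5a55_nt.HC.H16
import Pool.Agent.Lib.MP_0f5a55_nt.HC.H20
import Pool.Agent.Lib.MP_0f5a55_nt.EY.R19

/-!
Sums of coefficients of ring class characters of imaginary quadratic fields.
-/

set_option autoImplicit false

open Complex MeasureTheory Set Filter Topology
open scoped Real ComplexConjugate NumberField Pointwise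

namespace HC2

open HC NR

/-- the real quadratic form -/
noncomputable def qf (F : Fm) (z : ℝ × ℝ) : ℝ := F.A * z.1 ^ 2 + F.B * z.1 * z.2 + F.C * z.2 ^ 2

/-- the ellipse -/
def El (F : Fm) (X : ℝ) : Set (ℝ × ℝ) := {z | qf F z ≤ X}

/-- the linear map that makes the form a sum of two squares -/
noncomputable def mp (F : Fm) (N : ℕ) : (ℝ × ℝ) →ₗ[ℝ] (ℝ × ℝ) :=
  Matrix.toLin (Module.Basis.finTwoProd ℝ) (Module.Basis.finTwoProd ℝ)
    !![2 * (F.A : ℝ) / (2 * √(F.A : ℝ)), (F.B : ℝ) / (2 * √(F.A : ℝ)); 0, √(N : ℝ) / (2 * √(F.A : ℝ))]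

theorem mp_apply (F : Fm) (N : ℕ) (z : ℝ × ℝ) : mp F N z =
    (2 * (F.A : ℝ) / (2 * √(F.A : ℝ)) * z.1 + (F.B : ℝ) / (2 * √(F.A : ℝ)) * z.2, √(N : ℝ) / (2 * √(F.A : ℝ)) * z.2) := by
  simp [mp, Matrix.toLin_finTwoProd_apply]

theorem sA_pos {F : Fm} {N : ℕ} (h : F.Pos N) : 0 < √(F.A : ℝ) := Real.sqrt_pos.2 (by exact_mod_cast h.2.1)

theorem mp_qf {F : Fm} {N : ℕ} (h : F.Pos N) (z : ℝ × ℝ) : (mp F N z).1 ^ 2 + (mp F N z).2 ^ 2 = qf F z := by
  have hA : (0 : ℝ) < F.A := by exact_mod_cast h.2.1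
  have hs := sA_pos h
  have hs2 : √(F.A : ℝ) ^ 2 = F.A := Real.sq_sqrt hA.le
  have hN2 : √(N : ℝ) ^ 2 = N := Real.sq_sqrt (Nat.cast_nonneg _)
  have hd : 4 * (F.A : ℝ) * F.C - (F.B : ℝ) ^ 2 = N := by exact_mod_cast h.2.2
  rw [mp_apply]
  simp only [qf]
  have e : (2 * (F.A : ℝ) / (2 * √(F.A : ℝ)) * z.1 + (F.B : ℝ) / (2 * √(F.A : ℝ)) * z.2) ^ 2 +
      (√(N : ℝ) / (2 * √(F.A : ℝ)) * z.2) ^ 2 =
      ((2 * (F.A : ℝ) * z.1 + F.B * z.2) ^ 2 + √(N : ℝ) ^ 2 * z.2 ^ 2) / (4 * √(F.A : ℝ) ^ 2) := by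
    field_simp
    ring
  rw [e, hs2, hN2, ← hd]
  field_simp
  ring

theorem mp_det {F : Fm} {N : ℕ} (h : F.Pos N) : LinearMap.det (mp F N) = √(N : ℝ) / 2 := by
  have hA : (0 : ℝ) < F.A := by exact_mod_cast h.2.1
  have hs := sA_pos h
  have hs2 : √(F.A : ℝ) ^ 2 = F.A := Real.sq_sqrt hA.le
  rw [mp, LinearMap.det_toLin, Matrix.det_fin_two_of, mul_zero, sub_zero]
  have e : 2 * (F.A : ℝ) / (2 * √(F.A : ℝ)) * (√(N : ℝ) / (2 * √(F.A : ℝ))) = (F.A : ℝ) * √(N : ℝ) / (2 * √(F.A : ℝ) ^ 2) := by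
    field_simp
  rw [e, hs2]
  field_simp

/-- the disc -/
def Dc (X : ℝ) : Set (ℝ × ℝ) := {z | z.1 ^ 2 + z.2 ^ 2 ≤ X}

theorem El_eq {F : Fm} {N : ℕ} (h : F.Pos N) (X : ℝ) : El F X = (mp F N) ⁻¹' (Dc X) := by
  ext z
  simp only [El, Dc, Set.mem_preimage, Set.mem_ofPred_eq, mp_qf h]

theorem Dc_convex (X : ℝ) : Convex ℝ (Dc X) := by
  rintro ⟨x1, x2⟩ hx ⟨y1, y2⟩ hy s t hs ht hst
  simp only [Dc, Set.mem_ofPred_eq, Prod.smul_mk, Prod.mk_add_mk, smul_eq_mul] at hx hy ⊢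
  have h1 : (s * x1 + t * y1) ^ 2 ≤ s * x1 ^ 2 + t * y1 ^ 2 := by
    have : s * x1 ^ 2 + t * y1 ^ 2 - (s * x1 + t * y1) ^ 2 = s * t * (x1 - y1) ^ 2 + (1 - s - t) * (s * x1 ^ 2 + t * y1 ^ 2) := by
      ring
    have h2 : 1 - s - t = 0 := by linarith
    rw [h2, zero_mul, add_zero] at this
    nlinarith [mul_nonneg (mul_nonneg hs ht) (sq_nonneg (x1 - y1))]
  have h2 : (s * x2 + t * y2) ^ 2 ≤ s * x2 ^ 2 + t * y2 ^ 2 := by
    have : s * x2 ^ 2 + t * y2 ^ 2 - (s * x2 + t * y2) ^ 2 = s * t * (x2 - y2) ^ 2 + (1 - s - t) * (s * x2 ^ 2 + t * y2 ^ 2) := by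
      ring
    have h2 : 1 - s - t = 0 := by linarith
    rw [h2, zero_mul, add_zero] at this
    nlinarith [mul_nonneg (mul_nonneg hs ht) (sq_nonneg (x2 - y2))]
  calc (s * x1 + t * y1) ^ 2 + (s * x2 + t * y2) ^ 2 ≤ s * (x1 ^ 2 + x2 ^ 2) + t * (y1 ^ 2 + y2 ^ 2) := by linarith
    _ ≤ s * X + t * X := by
        exact add_le_add (mul_le_mul_of_nonneg_left hx hs) (mul_le_mul_of_nonneg_left hy ht)
    _ = X := by rw [← add_mul, hst, one_mul]

theorem Dc_meas (X : ℝ) : MeasurableSet (Dc X) := by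
  have : IsClosed (Dc X) := isClosed_le (by fun_prop) continuous_const
  exact this.measurableSet

theorem El_convex {F : Fm} {N : ℕ} (h : F.Pos N) (X : ℝ) : Convex ℝ (El F X) := by
  rw [El_eq h]
  exact (Dc_convex X).linear_preimage (mp F N)

theorem El_meas (F : Fm) (X : ℝ) : MeasurableSet (El F X) := by
  have : IsClosed (El F X) := by
    refine isClosed_le ?_ continuous_const
    unfold qf
    fun_prop
  exact this.measurableSet

/-- the radius of the ellipse -/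
theorem El_bd {F : Fm} {N : ℕ} (h : F.Pos N) {X : ℝ} (hX : 0 ≤ X) {z : ℝ × ℝ} (hz : z ∈ El F X) :
    |z.1| ≤ 2 * √((F.A : ℝ) + F.C) * √X ∧ |z.2| ≤ 2 * √((F.A : ℝ) + F.C) * √X := by
  have hA : (1 : ℝ) ≤ F.A := by exact_mod_cast h.2.1
  have hN : (1 : ℝ) ≤ N := by exact_mod_cast h.1
  have hd : 4 * (F.A : ℝ) * F.C - (F.B : ℝ) ^ 2 = N := by exact_mod_cast h.2.2
  have hC : (0 : ℝ) < F.C := by
    by_contra hc
    push Not at hc
    nlinarith [sq_nonneg (F.B : ℝ)]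
  simp only [El, Set.mem_ofPred_eq, qf] at hz
  have k1 : (N : ℝ) * z.2 ^ 2 ≤ 4 * F.A * X := by
    have : (N : ℝ) * z.2 ^ 2 = 4 * F.A * (F.A * z.1 ^ 2 + F.B * z.1 * z.2 + F.C * z.2 ^ 2) - (2 * F.A * z.1 + F.B * z.2) ^ 2 := by
      rw [← hd]; ring
    rw [this]
    nlinarith [sq_nonneg (2 * (F.A : ℝ) * z.1 + F.B * z.2)]
  have k2 : (N : ℝ) * z.1 ^ 2 ≤ 4 * F.C * X := by
    have : (N : ℝ) * z.1 ^ 2 = 4 * F.C * (F.A * z.1 ^ 2 + F.B * z.1 * z.2 + F.C * z.2 ^ 2) - (2 * F.C * z.2 + F.B * z.1) ^ 2 := by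
      rw [← hd]; ring
    rw [this]
    nlinarith [sq_nonneg (2 * (F.C : ℝ) * z.2 + F.B * z.1)]
  have hS : 0 ≤ (F.A : ℝ) + F.C := by linarith
  have e : (2 * √((F.A : ℝ) + F.C) * √X) ^ 2 = 4 * (F.A + F.C) * X := by
    rw [mul_pow, mul_pow, Real.sq_sqrt hS, Real.sq_sqrt hX]; ring
  have h0 : 0 ≤ 2 * √((F.A : ℝ) + F.C) * √X := by positivity
  constructor
  · apply abs_le_of_sq_le_sq _ h0
    rw [e]
    nlinarith [sq_nonneg z.1, mul_nonneg (by linarith : (0:ℝ) ≤ F.A) hX]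
  · apply abs_le_of_sq_le_sq _ h0
    rw [e]
    nlinarith [sq_nonneg z.2, mul_nonneg hC.le hX]

/-- the volume of the ellipse -/
theorem El_vol {F : Fm} {N : ℕ} (h : F.Pos N) {X : ℝ} (hX : 0 ≤ X) :
    (volume (El F X)).toReal = 2 * (volume (Dc 1)).toReal * X / √(N : ℝ) := by
  have hN : (0 : ℝ) < √(N : ℝ) := Real.sqrt_pos.2 (by exact_mod_cast h.1)
  have hdet : LinearMap.det (mp F N) ≠ 0 := by
    rw [mp_det h]; positivity
  rw [El_eq h, Measure.addHaar_preimage_linearMap volume hdet, mp_det h, ENNReal.toReal_mul,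
    ENNReal.toReal_ofReal (abs_nonneg _)]
  have hsc : (volume (Dc X)).toReal = X * (volume (Dc 1)).toReal := by
    rcases hX.eq_or_lt with h0 | h0
    · subst h0
      have : Dc 0 = {0} := by
        ext z
        simp only [Dc, Set.mem_ofPred_eq, Set.mem_singleton_iff]
        constructor
        · intro hz
          have h1 : z.1 = 0 := by nlinarith [sq_nonneg z.1, sq_nonneg z.2]
          have h2 : z.2 = 0 := by nlinarith [sq_nonneg z.1, sq_nonneg z.2]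
          exact Prod.ext h1 h2
        · rintro rfl
          simp
      rw [this, measure_singleton]
      simp
    · have e : Dc X = √X • Dc 1 := by
        ext z
        rw [Set.mem_smul_set_iff_inv_smul_mem₀ (Real.sqrt_pos.2 h0).ne']
        simp only [Dc, Set.mem_ofPred_eq, Prod.smul_fst, Prod.smul_snd, smul_eq_mul, mul_pow, inv_pow,
          Real.sq_sqrt h0.le]
        rw [← mul_add, inv_mul_le_iff₀ h0, mul_one]
      rw [e, Measure.addHaar_smul, ENNReal.toReal_mul, ENNReal.toReal_ofReal (abs_nonneg _)]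
      have hf : Module.finrank ℝ (ℝ × ℝ) = 2 := by simp
      rw [hf, Real.sq_sqrt h0.le, abs_of_pos h0]
  rw [hsc, abs_inv, abs_of_pos (by positivity)]
  field_simp

/-- points of the ellipse in a residue class -/
theorem count_el {F : Fm} {N : ℕ} (h : F.Pos N) {M : ℕ} (hM : 0 < M) (ρ : ZMod M × ZMod M) : ∃ C : ℝ, 0 ≤ C ∧ ∀ X : ℝ, 1 ≤ X →
    {v : ℤ × ℤ | ((F.val v : ℤ) : ℝ) ≤ X ∧ (v.1 : ZMod M) = ρ.1 ∧ (v.2 : ZMod M) = ρ.2}.Finite ∧
    |(({v : ℤ × ℤ | ((F.val v : ℤ) : ℝ) ≤ X ∧ (v.1 : ZMod M) = ρ.1 ∧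
        (v.2 : ZMod M) = ρ.2}.ncard : ℕ) : ℝ) - 2 * (volume (Dc 1)).toReal * X / (√(N : ℝ) * (M : ℝ) ^ 2)| ≤ C * √X := by
  set D : ℝ := 2 * √((F.A : ℝ) + F.C) with hD
  have hD0 : 0 ≤ D := by positivity
  refine ⟨5 * (D + 1 + M), by positivity, fun X hX => ?_⟩
  have hX0 : 0 ≤ X := by linarith
  have hsX : 1 ≤ √X := Real.one_le_sqrt.2 hX
  have hr1 : 1 ≤ (D + 1) * √X := by nlinarith
  have hset : {v : ℤ × ℤ | ((F.val v : ℤ) : ℝ) ≤ X ∧ (v.1 : ZMod M) = ρ.1 ∧ (v.2 : ZMod M) = ρ.2} =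
      {v : ℤ × ℤ | ((v.1 : ℝ), (v.2 : ℝ)) ∈ El F X ∧ (v.1 : ZMod M) = ρ.1 ∧ (v.2 : ZMod M) = ρ.2} := by
    ext v
    simp only [Set.mem_ofPred_eq, El, qf, Fm.val]
    push_cast
    rfl
  have hb := lattice_res (El_convex h X) (El_meas F X) hr1 (fun z hz => by
    obtain ⟨h1, h2⟩ := El_bd h hX0 hz
    have : D * √X ≤ (D + 1) * √X := by nlinarith
    exact ⟨h1.trans this, h2.trans this⟩) hM ρ
  rw [hset]
  refine ⟨hb.1, ?_⟩
  have h3 := hb.2
  rw [El_vol h hX0] at h3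
  have e : 2 * (volume (Dc 1)).toReal * X / √(N : ℝ) / (M : ℝ) ^ 2 =
      2 * (volume (Dc 1)).toReal * X / (√(N : ℝ) * (M : ℝ) ^ 2) := by
    rw [div_div]
  rw [e] at h3
  refine h3.trans ?_
  have hMs : (M : ℝ) ≤ M * √X := by
    have : (0 : ℝ) ≤ M := Nat.cast_nonneg _
    nlinarith
  nlinarith

/-- finitely many vectors of bounded value -/
theorem fin_le {F : Fm} {N : ℕ} (h : F.Pos N) (x : ℕ) : {v : ℤ × ℤ | F.val v ≤ x}.Finite := by
  obtain ⟨C, -, hC⟩ := count_el h Nat.one_pos ((0, 0) : ZMod 1 × ZMod 1)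
  have h1 := (hC ((x : ℝ) + 1) (by have : (0 : ℝ) ≤ x := Nat.cast_nonneg _; linarith)).1
  refine h1.subset fun v hv => ?_
  have h2 : F.val v ≤ x := hv
  refine ⟨?_, Subsingleton.elim _ _, Subsingleton.elim _ _⟩
  have : ((F.val v : ℤ) : ℝ) ≤ x := by exact_mod_cast h2
  linarith

theorem val_nn {F : Fm} {N : ℕ} (h : F.Pos N) (v : ℤ × ℤ) : 0 ≤ F.val v := H20_val_nonneg h v

/-- the weighted count -/
theorem count_w {F : Fm} {N : ℕ} (h : F.Pos N) (M : ℕ) [NeZero M] (w : ℕ → ℂ) (hw : ∀ n, w (n + M) = w n) :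
    ∃ C : ℝ, 0 ≤ C ∧ ∀ x : ℕ, 1 ≤ x →
      ‖∑ n ∈ Finset.Icc 1 x, w n * (({v : ℤ × ℤ | F.val v = n}.ncard : ℕ) : ℂ) -
        (2 * (volume (Dc 1)).toReal * x / (√(N : ℝ) * (M : ℝ) ^ 2) : ℝ) * ∑ k : ZMod M, w k.val * (ct F M k : ℂ)‖ ≤ C * √x := by
  classical
  have hM : 0 < M := Nat.pos_of_ne_zero (NeZero.ne M)
  choose C hC hx using fun ρ : ZMod M × ZMod M => count_el h hM ρ
  refine ⟨(∑ ρ : ZMod M × ZMod M, ‖w (zv F M ρ).val‖ * C ρ) + ‖w 0‖, ?_, ?_⟩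
  · exact add_nonneg (Finset.sum_nonneg fun ρ _ => mul_nonneg (norm_nonneg _) (hC ρ)) (norm_nonneg _)
  intro x hx1
  have hx1' : (1 : ℝ) ≤ (x : ℝ) := by exact_mod_cast hx1
  set D : Finset (ℤ × ℤ) := (fin_le h x).toFinset with hDdef
  have hD : ∀ v, v ∈ D ↔ F.val v ≤ x := by
    intro v
    rw [hDdef, Set.Finite.mem_toFinset, Set.mem_ofPred_eq]
  have e1 : ∑ n ∈ Finset.Icc 1 x, w n * (({v : ℤ × ℤ | F.val v = n}.ncard : ℕ) : ℂ) =
      ∑ v ∈ D.erase 0, w (F.val v).natAbs := by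
    have hmap : ∀ v ∈ D.erase 0, (F.val v).natAbs ∈ Finset.Icc 1 x := by
      intro v hv
      obtain ⟨h1, h2⟩ := Finset.mem_erase.1 hv
      rw [hD] at h2
      have h3 := val_nn h v
      have h4 : F.val v ≠ 0 := fun h0 => h1 (H20_val_zero h h0)
      rw [Finset.mem_Icc]
      omega
    rw [← Finset.sum_fiberwise_of_maps_to hmap]
    refine Finset.sum_congr rfl fun n hn => ?_
    have hn1 := Finset.mem_Icc.1 hn
    have h1 : ∑ v ∈ (D.erase 0).filter (fun v => (F.val v).natAbs = n), w (F.val v).natAbs =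
        ∑ v ∈ (D.erase 0).filter (fun v => (F.val v).natAbs = n), w n := by
      refine Finset.sum_congr rfl fun v hv => ?_
      rw [(Finset.mem_filter.1 hv).2]
    rw [h1, Finset.sum_const, nsmul_eq_mul, mul_comm]
    congr 2
    rw [← Set.ncard_coe_finset]
    congr 1
    ext v
    simp only [Finset.coe_filter, Set.mem_ofPred_eq, Finset.mem_erase, hD]
    have h3 := val_nn h v
    constructor
    · intro h4
      refine ⟨⟨?_, by omega⟩, by omega⟩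
      rintro rfl
      have : F.val 0 = 0 := by simp [Fm.val]
      omega
    · rintro ⟨_, h4⟩
      omega
  have h0D : (0 : ℤ × ℤ) ∈ D := by
    rw [hD]
    have : F.val 0 = 0 := by simp [Fm.val]
    rw [this]
    exact_mod_cast Nat.zero_le x
  have e2 : ∑ v ∈ D.erase 0, w (F.val v).natAbs = ∑ v ∈ D, w (F.val v).natAbs - w 0 := by
    rw [← Finset.sum_erase_add _ _ h0D]
    have : (F.val 0).natAbs = 0 := by simp [Fm.val]
    rw [this]
    ring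
  have e3 : ∑ v ∈ D, w (F.val v).natAbs = ∑ ρ : ZMod M × ZMod M, w (zv F M ρ).val *
      (({v : ℤ × ℤ | ((F.val v : ℤ) : ℝ) ≤ (x : ℝ) ∧ (v.1 : ZMod M) = ρ.1 ∧ (v.2 : ZMod M) = ρ.2}.ncard : ℕ) : ℂ) := by
    rw [← Finset.sum_fiberwise D (fun v : ℤ × ℤ => (((v.1 : ZMod M), (v.2 : ZMod M)) : ZMod M × ZMod M))
      (fun v => w (F.val v).natAbs)]
    refine Finset.sum_congr rfl fun ρ _ => ?_
    have h1 : ∑ v ∈ D with (((v.1 : ZMod M), (v.2 : ZMod M)) : ZMod M × ZMod M) = ρ, w (F.val v).natAbs =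
        ∑ v ∈ D with (((v.1 : ZMod M), (v.2 : ZMod M)) : ZMod M × ZMod M) = ρ, w (zv F M ρ).val := by
      refine Finset.sum_congr rfl fun v hv => ?_
      obtain ⟨hv1, hv2⟩ := Finset.mem_filter.1 hv
      rw [C6_per hw]
      congr 2
      have h5 : (((F.val v).natAbs : ℕ) : ℤ) = F.val v := Int.natAbs_of_nonneg (val_nn h v)
      have h6 := congrArg (fun z : ℤ => (z : ZMod M)) h5
      rw [Int.cast_natCast, C6_cast, hv2] at h6
      exact h6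
    rw [h1, Finset.sum_const, nsmul_eq_mul, mul_comm]
    congr 2
    rw [← Set.ncard_coe_finset]
    congr 1
    ext v
    simp only [Finset.coe_filter, Set.mem_ofPred_eq, hD]
    constructor
    · rintro ⟨h2, h5⟩
      exact ⟨by exact_mod_cast h2, congrArg Prod.fst h5, congrArg Prod.snd h5⟩
    · rintro ⟨h2, h5, h6⟩
      exact ⟨by exact_mod_cast h2, Prod.ext h5 h6⟩
  have e4 : ∑ k : ZMod M, w k.val * (ct F M k : ℂ) = ∑ ρ : ZMod M × ZMod M, w (zv F M ρ).val := by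
    rw [C6_fib F M (fun k => w k.val)]
  rw [e1, e2, e3, e4, Finset.mul_sum]
  have e5 : ∑ ρ : ZMod M × ZMod M, w (zv F M ρ).val *
      (({v : ℤ × ℤ | ((F.val v : ℤ) : ℝ) ≤ (x : ℝ) ∧ (v.1 : ZMod M) = ρ.1 ∧ (v.2 : ZMod M) = ρ.2}.ncard : ℕ) : ℂ) - w 0 -
      ∑ ρ : ZMod M × ZMod M, (2 * (volume (Dc 1)).toReal * x / (√(N : ℝ) * (M : ℝ) ^ 2) : ℝ) * w (zv F M ρ).val =
      ∑ ρ : ZMod M × ZMod M, w (zv F M ρ).val *
        (((({v : ℤ × ℤ | ((F.val v : ℤ) : ℝ) ≤ (x : ℝ) ∧ (v.1 : ZMod M) = ρ.1 ∧ (v.2 : ZMod M) = ρ.2}.ncard : ℕ) : ℝ) -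
          2 * (volume (Dc 1)).toReal * x / (√(N : ℝ) * (M : ℝ) ^ 2) : ℝ) : ℂ) - w 0 := by
    rw [sub_right_comm, ← Finset.sum_sub_distrib]
    congr 1
    refine Finset.sum_congr rfl fun ρ _ => ?_
    rw [ofReal_sub, ofReal_natCast]
    ring
  rw [e5, add_mul]
  refine (norm_sub_le _ _).trans (add_le_add ?_ ?_)
  · rw [Finset.sum_mul]
    refine (norm_sum_le _ _).trans (Finset.sum_le_sum fun ρ _ => ?_)
    rw [norm_mul, Complex.norm_real, Real.norm_eq_abs]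
    exact (mul_le_mul_of_nonneg_left (hx ρ x hx1').2 (norm_nonneg (w (zv F M ρ).val))).trans (le_of_eq (mul_assoc _ _ _).symm)
  · exact le_mul_of_one_le_right (norm_nonneg _) (Real.one_le_sqrt.2 hx1')

variable {K : Type*} [Field K] [NumberField K]

theorem form_zero {F : Fm} {N : ℕ} (h : F.Pos N) : ∀ v, F.val v = 0 → v = 0 := fun _ h0 => H20_val_zero h h0

/-- Sums of the coefficients of a nontrivial ring class character of an imaginary quadratic field. -/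
theorem sum_im [NumberField.IsTotallyComplex K] (h2 : Module.finrank ℚ K = 2) {f : ℕ}
    {ψ : Ideal (𝓞 K) →*₀ ℂ} (h : RC f ψ) (hψ : ∃ I, Cop f I ∧ ψ I ≠ 1) {T : Finset (Ideal (𝓞 K))} {F : Ideal (𝓞 K) → Fm}
    (hT : Forms f T F) : ∃ C : ℝ, ∀ x : ℕ, 1 ≤ x → ‖∑ n ∈ Finset.Icc 1 x, ac ψ n‖ ≤ C * √x := by
  classical
  have : NeZero f := ⟨h.pos.ne'⟩
  have hw' : ∀ n, (fun n : ℕ => if n.Coprime f then (1 : ℂ) else 0) (n + f) =
      (fun n : ℕ => if n.Coprime f then (1 : ℂ) else 0) n := by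
    intro n
    simp only [Nat.coprime_add_self_left]
  have H : ∀ a : Ideal (𝓞 K), ∃ C : ℝ, 0 ≤ C ∧ (a ∈ T → ∀ x : ℕ, 1 ≤ x →
      ‖∑ n ∈ Finset.Icc 1 x, (if n.Coprime f then (1 : ℂ) else 0) * (({v : ℤ × ℤ | (F a).val v = n}.ncard : ℕ) : ℂ) -
        (2 * (volume (Dc 1)).toReal * x / (√((lev K f : ℕ) : ℝ) * (f : ℝ) ^ 2) : ℝ) *
          ∑ k : ZMod f, (if k.val.Coprime f then (1 : ℂ) else 0) * (ct (F a) f k : ℂ)‖ ≤ C * √x) := by
    intro a
    by_cases ha : a ∈ T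
    · obtain ⟨C, hC, hx⟩ := count_w (hT.2 a ha).2 f (fun n : ℕ => if n.Coprime f then (1 : ℂ) else 0) hw'
      exact ⟨C, hC, fun _ => hx⟩
    · exact ⟨0, le_rfl, fun h => absurd h ha⟩
  choose C hC hx using H
  set wf : ℕ := Nat.card {u : (𝓞 K)ˣ // Ord f (u : 𝓞 K)} with hwf
  have hwf1 : (1 : ℝ) ≤ (wf : ℝ) := by exact_mod_cast units_pos (K := K) h2 f
  have h0 : ∑ a ∈ T, conj (ψ a) * ∑ k : ZMod f, (if k.val.Coprime f then (1 : ℂ) else 0) * (ct (F a) f k : ℂ) = 0 := by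
    have h1 := cancel_UU h2 h hψ hT.1 (fun a ha => ⟨(hT.2 a ha).1, form_zero (hT.2 a ha).2⟩)
    have h3 : ∀ a : Ideal (𝓞 K), ∑ k : ZMod f, (if k.val.Coprime f then (1 : ℂ) else 0) * (SS (F a) f k : ℂ) =
        2 * ∑ k : ZMod f, (if k.val.Coprime f then (1 : ℂ) else 0) * (ct (F a) f k : ℂ) := by
      intro a
      have h4 : ∑ k : ZMod f, (if k.val.Coprime f then (1 : ℂ) else 0) * (ct (F a) f (-k) : ℂ) =
          ∑ k : ZMod f, (if k.val.Coprime f then (1 : ℂ) else 0) * (ct (F a) f k : ℂ) := by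
        rw [← Equiv.sum_comp (Equiv.neg (ZMod f))]
        refine Finset.sum_congr rfl fun k _ => ?_
        simp only [Equiv.neg_apply, neg_neg, A11_unit, IsUnit.neg_iff]
      rw [two_mul]
      conv_rhs => lhs; rw [← h4]
      rw [← Finset.sum_add_distrib]
      refine Finset.sum_congr rfl fun k _ => ?_
      unfold SS
      push_cast
      ring
    have h5 : ∑ k : ZMod f, (if k.val.Coprime f then (1 : ℂ) else 0) * ∑ a ∈ T, conj (ψ a) * (SS (F a) f k : ℂ) =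
        2 * ∑ a ∈ T, conj (ψ a) * ∑ k : ZMod f, (if k.val.Coprime f then (1 : ℂ) else 0) * (ct (F a) f k : ℂ) := by
      rw [Finset.mul_sum]
      have : ∀ a ∈ T, 2 * (conj (ψ a) * ∑ k : ZMod f, (if k.val.Coprime f then (1 : ℂ) else 0) * (ct (F a) f k : ℂ)) =
          ∑ k : ZMod f, (if k.val.Coprime f then (1 : ℂ) else 0) * (conj (ψ a) * (SS (F a) f k : ℂ)) := by
        intro a _
        have h6 := h3 a
        have : 2 * (conj (ψ a) * ∑ k : ZMod f, (if k.val.Coprime f then (1 : ℂ) else 0) * (ct (F a) f k : ℂ)) =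
            conj (ψ a) * ∑ k : ZMod f, (if k.val.Coprime f then (1 : ℂ) else 0) * (SS (F a) f k : ℂ) := by
          rw [h6]; ring
        rw [this, Finset.mul_sum]
        refine Finset.sum_congr rfl fun k _ => ?_
        ring
      rw [Finset.sum_congr rfl this, Finset.sum_comm]
      refine Finset.sum_congr rfl fun k _ => ?_
      rw [Finset.mul_sum]
    rw [h5] at h1
    exact (mul_eq_zero.1 h1).resolve_left two_ne_zero
  refine ⟨∑ a ∈ T, C a, fun x hx1 => ?_⟩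
  have hsum : (wf : ℂ) * ∑ n ∈ Finset.Icc 1 x, ac ψ n = ∑ a ∈ T, conj (ψ a) *
      ∑ n ∈ Finset.Icc 1 x, (if n.Coprime f then (1 : ℂ) else 0) * (({v : ℤ × ℤ | (F a).val v = n}.ncard : ℕ) : ℂ) := by
    have e1 : ∀ n ∈ Finset.Icc 1 x, (wf : ℂ) * ac ψ n = ∑ a ∈ T, conj (ψ a) *
        ((if n.Coprime f then (1 : ℂ) else 0) * (({v : ℤ × ℤ | (F a).val v = n}.ncard : ℕ) : ℂ)) := by
      intro n hn
      have hn0 : 0 < n := (Finset.mem_Icc.1 hn).1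
      by_cases hc : n.Coprime f
      · simp only [if_pos hc, one_mul]
        exact count_cop h2 h hT hn0 hc
      · simp only [if_neg hc, zero_mul, mul_zero, Finset.sum_const_zero]
        rw [RC.ac_ncop h2 h hn0 hc, mul_zero]
    rw [Finset.mul_sum, Finset.sum_congr rfl e1, Finset.sum_comm]
    refine Finset.sum_congr rfl fun a _ => ?_
    rw [Finset.mul_sum]
  have hsum2 : (wf : ℂ) * ∑ n ∈ Finset.Icc 1 x, ac ψ n = ∑ a ∈ T, conj (ψ a) *
      (∑ n ∈ Finset.Icc 1 x, (if n.Coprime f then (1 : ℂ) else 0) * (({v : ℤ × ℤ | (F a).val v = n}.ncard : ℕ) : ℂ) -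
        (2 * (volume (Dc 1)).toReal * x / (√((lev K f : ℕ) : ℝ) * (f : ℝ) ^ 2) : ℝ) *
          ∑ k : ZMod f, (if k.val.Coprime f then (1 : ℂ) else 0) * (ct (F a) f k : ℂ)) := by
    rw [hsum]
    simp only [mul_sub]
    rw [Finset.sum_sub_distrib]
    have : ∑ a ∈ T, conj (ψ a) * (((2 * (volume (Dc 1)).toReal * x / (√((lev K f : ℕ) : ℝ) * (f : ℝ) ^ 2) : ℝ) : ℂ) *
          ∑ k : ZMod f, (if k.val.Coprime f then (1 : ℂ) else 0) * (ct (F a) f k : ℂ)) =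
        ((2 * (volume (Dc 1)).toReal * x / (√((lev K f : ℕ) : ℝ) * (f : ℝ) ^ 2) : ℝ) : ℂ) *
        ∑ a ∈ T, conj (ψ a) * ∑ k : ZMod f, (if k.val.Coprime f then (1 : ℂ) else 0) * (ct (F a) f k : ℂ) := by
      rw [Finset.mul_sum]
      refine Finset.sum_congr rfl fun a _ => ?_
      ring
    rw [this, h0, mul_zero, sub_zero]
  have h7 : ‖(wf : ℂ) * ∑ n ∈ Finset.Icc 1 x, ac ψ n‖ ≤ (∑ a ∈ T, C a) * √x := by
    rw [hsum2, Finset.sum_mul]
    refine (norm_sum_le _ _).trans (Finset.sum_le_sum fun a ha => ?_)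
    rw [norm_mul, Complex.norm_conj, h.cop a (hT.1.1 a ha), one_mul]
    exact hx a ha x hx1
  rw [norm_mul, Complex.norm_natCast] at h7
  have h8 : 0 ≤ ‖∑ n ∈ Finset.Icc 1 x, ac ψ n‖ := norm_nonneg _
  nlinarith

end HC2
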