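import Pool.Agent.Lib.MP_0f5a55_nt.NR.A0

/-!
Local factors of ring class characters, all characters at once.
-/

set_option autoImplicit false

open Complex MeasureTheory Set Filter Topology
open scoped Real ComplexConjugate NumberField

namespace HC2

open HC NR

variable {K : Type*} [Field K] [NumberField K]

/-- if p divides the norm ... -/
private lemma B_dvd {p k : ℕ} {I : Ideal (𝓞 K)} (hI : Ideal.absNorm I = p ^ k) :
    I ∣ (Ideal.span {(p : 𝓞 K)}) ^ k := by
  rw [Ideal.span_singleton_pow, ← Nat.cast_pow, ← hI, Ideal.dvd_iff_le, Ideal.span_singleton_le_iff_mem]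
  exact Ideal.absNorm_mem I

private lemma B_absNorm (h2 : Module.finrank ℚ K = 2) (p : ℕ) :
    Ideal.absNorm (Ideal.span {(p : 𝓞 K)}) = p ^ 2 := H13_norm_nat (K := K) h2 p

private lemma B_ac {ψ : Ideal (𝓞 K) →*₀ ℂ} {n : ℕ} {ι : Type*} (s : Finset ι)
    (g : ι → Ideal (𝓞 K)) (hg : Set.InjOn g s) (hs : ∀ I, Ideal.absNorm I = n ↔ ∃ i ∈ s, g i = I) :
    ac ψ n = ∑ i ∈ s, ψ (g i) := by
  classical
  have h1 : {I : Ideal (𝓞 K) | Ideal.absNorm I = n} = ((s.image g : Finset (Ideal (𝓞 K))) : Set (Ideal (𝓞 K))) := by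
    ext I
    rw [Set.mem_ofPred_eq, hs]
    simp
  have h3 : ac ψ n = ∑ᶠ I ∈ {I : Ideal (𝓞 K) | Ideal.absNorm I = n}, ψ I := rfl
  rw [h3, h1, finsum_mem_coe_finset, Finset.sum_image hg]

/-- the three types of primes: (i) split, (ii) ramified, (iii) inert -/
theorem loc3 (h2 : Module.finrank ℚ K = 2) (p : ℕ) (hp : p.Prime) :
    (∃ P Q : Ideal (𝓞 K), Ideal.span {(p : 𝓞 K)} = P * Q ∧
      ∀ (ψ : Ideal (𝓞 K) →*₀ ℂ) (k : ℕ), ac ψ (p ^ k) = ∑ j ∈ Finset.range (k + 1), ψ P ^ j * ψ Q ^ (k - j)) ∨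
    (∃ P : Ideal (𝓞 K), Ideal.span {(p : 𝓞 K)} = P * P ∧ Ideal.absNorm P = p ∧
      ∀ (ψ : Ideal (𝓞 K) →*₀ ℂ) (k : ℕ), ac ψ (p ^ k) = ψ P ^ k) ∨
    (∀ (ψ : Ideal (𝓞 K) →*₀ ℂ) (k : ℕ), ac ψ (p ^ k) = if Even k then ψ (Ideal.span {(p : 𝓞 K)}) ^ (k / 2) else 0) := by
  have hN := B_absNorm (K := K) h2 p
  have hp0 : (Ideal.span {(p : 𝓞 K)}) ≠ ⊥ := by
    intro h0
    rw [h0, Ideal.absNorm_bot] at hN
    exact absurd hN.symm (pow_ne_zero 2 hp.ne_zero)
  have hp1 : (Ideal.span {(p : 𝓞 K)}) ≠ ⊤ := by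
    intro h0
    rw [h0, Ideal.absNorm_top] at hN
    have := hp.one_lt
    nlinarith
  -- a prime factor
  obtain ⟨P, hP, Q, hPQ⟩ : ∃ P : Ideal (𝓞 K), Prime P ∧ ∃ Q, Ideal.span {(p : 𝓞 K)} = P * Q := by
    obtain ⟨P, hPi, hPd⟩ := WfDvdMonoid.exists_irreducible_factor
      (a := Ideal.span {(p : 𝓞 K)}) (by rwa [Ideal.isUnit_iff]) (by simpa using hp0)
    obtain ⟨Q, hQ⟩ := hPd
    exact ⟨P, hPi.prime, Q, hQ⟩
  have hPn1 : Ideal.absNorm P ≠ 1 := by
    intro h1
    rw [Ideal.absNorm_eq_one_iff] at h1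
    exact hP.not_isUnit (Ideal.isUnit_iff.2 h1)
  have hmul : Ideal.absNorm P * Ideal.absNorm Q = p ^ 2 := by
    rw [← map_mul, ← hPQ, hN]
  obtain ⟨a, ha2, haP⟩ := (Nat.dvd_prime_pow hp).1 (Dvd.intro _ hmul)
  have ha0 : a ≠ 0 := by
    rintro rfl
    exact hPn1 (by rw [haP, pow_zero])
  have hdvdP : ∀ k, ∀ I : Ideal (𝓞 K), I ∣ P ^ k → ∃ i, I = P ^ i := by
    intro k I hI
    obtain ⟨i, _, hi⟩ := (dvd_prime_pow hP k).1 hI
    exact ⟨i, associated_iff_eq.1 hi⟩
  rcases (by omega : a = 2 ∨ a = 1) with rfl | rfl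
  · -- inert
    have hQ1 : Ideal.absNorm Q = 1 := by
      rw [haP] at hmul
      have : 0 < p ^ 2 := pow_pos hp.pos 2
      nlinarith
    rw [Ideal.absNorm_eq_one_iff] at hQ1
    rw [hQ1, Ideal.mul_top] at hPQ
    refine Or.inr (Or.inr fun ψ k => ?_)
    by_cases hk : Even k
    · obtain ⟨m, rfl⟩ := hk
      rw [if_pos (by exact ⟨m, rfl⟩)]
      rw [B_ac (n := p ^ (m + m)) {m} (fun i => P ^ i) (by simp) ?_]
      · rw [Finset.sum_singleton, map_pow, hPQ]
        congr 1
        omega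
      · intro I
        constructor
        · intro hI
          obtain ⟨i, rfl⟩ := hdvdP (m + m) I (by rw [← hPQ]; exact B_dvd hI)
          rw [map_pow, haP, ← pow_mul] at hI
          have := Nat.pow_right_injective hp.two_le hI
          refine ⟨m, Finset.mem_singleton_self m, ?_⟩
          have : m = i := by omega
          rw [this]
        · rintro ⟨i, hi, rfl⟩
          rw [Finset.mem_singleton] at hi
          subst hi
          rw [map_pow, haP, ← pow_mul]
          congr 1
          omega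
    · rw [if_neg hk]
      rw [B_ac (n := p ^ k) (∅ : Finset ℕ) (fun i => P ^ i) (by simp) ?_]
      · simp
      · intro I
        constructor
        · intro hI
          exfalso
          obtain ⟨i, rfl⟩ := hdvdP k I (by rw [← hPQ]; exact B_dvd hI)
          rw [map_pow, haP, ← pow_mul] at hI
          have := Nat.pow_right_injective hp.two_le hI
          exact hk ⟨i, by omega⟩
        · rintro ⟨i, hi, _⟩
          simp at hi
  · -- norm p
    rw [pow_one] at haP
    have hQn : Ideal.absNorm Q = p := by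
      rw [haP, sq] at hmul
      exact Nat.eq_of_mul_eq_mul_left hp.pos hmul
    have hQ : Prime Q := by
      rw [Ideal.prime_iff_isPrime (by rintro rfl; rw [Ideal.absNorm_bot] at hQn; exact hp.ne_zero hQn.symm)]
      exact Ideal.isPrime_of_irreducible_absNorm (by rw [hQn]; exact hp)
    have hdvdQ : ∀ k, ∀ I : Ideal (𝓞 K), I ∣ Q ^ k → ∃ i, I = Q ^ i := by
      intro k I hI
      obtain ⟨i, _, hi⟩ := (dvd_prime_pow hQ k).1 hI
      exact ⟨i, associated_iff_eq.1 hi⟩
    by_cases hne : P = Q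
    · -- ramified
      subst hne
      refine Or.inr (Or.inl ⟨P, hPQ, haP, fun ψ k => ?_⟩)
      rw [B_ac (n := p ^ k) {k} (fun i => P ^ i) (by simp) ?_]
      · rw [Finset.sum_singleton, map_pow]
      · intro I
        constructor
        · intro hI
          obtain ⟨i, rfl⟩ := hdvdP (2 * k) I (by
            rw [pow_mul, sq, ← hPQ]
            exact B_dvd hI)
          rw [map_pow, haP] at hI
          have := Nat.pow_right_injective hp.two_le hI
          exact ⟨k, Finset.mem_singleton_self k, by rw [this]⟩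
        · rintro ⟨i, hi, rfl⟩
          rw [Finset.mem_singleton] at hi
          subst hi
          rw [map_pow, haP]
    · -- split
      refine Or.inl ⟨P, Q, hPQ, fun ψ k => ?_⟩
      have key : ∀ i j i' j' : ℕ, i < i' → P ^ i * Q ^ j ≠ P ^ i' * Q ^ j' := by
        intro i j i' j' hlt heq
        obtain ⟨d, rfl⟩ : ∃ d, i' = i + (d + 1) := ⟨i' - i - 1, by omega⟩
        rw [pow_add, mul_assoc] at heq
        have h3 := mul_left_cancel₀ (pow_ne_zero i hP.ne_zero) heq
        have h4 : P ∣ Q ^ j := by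
          rw [h3, pow_succ, mul_assoc]
          exact Dvd.dvd.mul_left (dvd_mul_right _ _) _
        have h5 := hP.dvd_of_dvd_pow h4
        exact hne (associated_iff_eq.1 (hP.associated_of_dvd hQ h5))
      rw [B_ac (n := p ^ k) (Finset.range (k + 1)) (fun j => P ^ j * Q ^ (k - j)) ?_ ?_]
      · refine Finset.sum_congr rfl fun j _ => ?_
        rw [map_mul, map_pow, map_pow]
      · intro i _ j _ hij
        by_contra hcon
        rcases Nat.lt_or_gt_of_ne hcon with hlt | hlt
        · exact key _ _ _ _ hlt hij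
        · exact key _ _ _ _ hlt hij.symm
      · intro I
        constructor
        · intro hI
          have h3 : I ∣ P ^ k * Q ^ k := by
            rw [← mul_pow, ← hPQ]
            exact B_dvd hI
          obtain ⟨I1, I2, hI1, hI2, rfl⟩ := exists_dvd_and_dvd_of_dvd_mul h3
          obtain ⟨i, rfl⟩ := hdvdP k I1 hI1
          obtain ⟨j, rfl⟩ := hdvdQ k I2 hI2
          rw [map_mul, map_pow, map_pow, haP, hQn, ← pow_add] at hI
          have := Nat.pow_right_injective hp.two_le hI
          refine ⟨i, Finset.mem_range.2 (by omega), ?_⟩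
          have : k - i = j := by omega
          rw [this]
        · rintro ⟨i, hi, rfl⟩
          rw [Finset.mem_range] at hi
          rw [map_mul, map_pow, map_pow, haP, hQn, ← pow_add]
          congr 1
          omega

end HC2
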