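import Mathlib

/-!
The local identity of Rankin and Selberg.
-/

set_option autoImplicit false

open PowerSeries

namespace HC2

/-- geometric series -/
noncomputable def gs (z : ℂ) : PowerSeries ℂ := PowerSeries.mk fun k => z ^ k

/-- complete symmetric polynomials in two variables -/
noncomputable def hs (α β : ℂ) (k : ℕ) : ℂ := ∑ j ∈ Finset.range (k + 1), α ^ j * β ^ (k - j)

theorem hs_zero (α β : ℂ) : hs α β 0 = 1 := by simp [hs]

theorem hs_succ (α β : ℂ) (k : ℕ) : hs α β (k + 1) = α * hs α β k + β ^ (k + 1) := by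
  unfold hs
  rw [Finset.sum_range_succ' (fun j => α ^ j * β ^ (k + 1 - j)), Finset.mul_sum]
  congr 1
  · refine Finset.sum_congr rfl fun j _ => ?_
    rw [Nat.add_sub_add_right]
    ring
  · simp

theorem hs_coeff (α β : ℂ) (k : ℕ) : hs α β k = PowerSeries.coeff k (gs α * gs β) := by
  rw [PowerSeries.coeff_mul, Finset.Nat.sum_antidiagonal_eq_sum_range_succ_mk]
  simp only [gs, PowerSeries.coeff_mk]
  rfl

theorem coeff_lin (z : ℂ) (f : PowerSeries ℂ) (k : ℕ) :
    PowerSeries.coeff (k + 1) ((1 - PowerSeries.C z * PowerSeries.X) * f) =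
      PowerSeries.coeff (k + 1) f - z * PowerSeries.coeff k f := by
  rw [sub_mul, one_mul, map_sub, mul_assoc, PowerSeries.coeff_C_mul, PowerSeries.coeff_succ_X_mul]

theorem coeff_lin0 (z : ℂ) (f : PowerSeries ℂ) :
    PowerSeries.coeff 0 ((1 - PowerSeries.C z * PowerSeries.X) * f) = PowerSeries.coeff 0 f := by
  simp [PowerSeries.coeff_zero_eq_constantCoeff]

theorem gs_mul (z : ℂ) : (1 - PowerSeries.C z * PowerSeries.X) * gs z = 1 := by
  ext k
  cases k with
  | zero => rw [coeff_lin0]; simp [gs]
  | succ k =>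
    rw [coeff_lin, PowerSeries.coeff_one, if_neg (Nat.succ_ne_zero k)]
    simp only [gs, PowerSeries.coeff_mk]
    ring

/-- product of the coefficients -/
noncomputable def ws (α β γ δ : ℂ) : PowerSeries ℂ := PowerSeries.mk fun k => hs α β k * hs γ δ k

theorem ws_step (α β γ δ : ℂ) : (1 - PowerSeries.C (α * γ) * PowerSeries.X) * ws α β γ δ =
    gs (α * δ) * gs (β * δ) + gs (β * γ) * gs (β * δ) - gs (β * δ) := by
  ext k
  cases k with
  | zero =>
    rw [coeff_lin0, map_sub, map_add, ← hs_coeff, ← hs_coeff]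
    simp [ws, gs, hs_zero]
  | succ k =>
    rw [coeff_lin, map_sub, map_add, ← hs_coeff, ← hs_coeff]
    have h1 : hs (α * δ) (β * δ) k = δ ^ k * hs α β k := by
      unfold hs
      rw [Finset.mul_sum]
      refine Finset.sum_congr rfl fun j hj => ?_
      have : j + (k - j) = k := by
        have := Finset.mem_range.1 hj
        omega
      conv_rhs => rw [← this, pow_add]
      rw [Nat.add_sub_cancel' (by have := Finset.mem_range.1 hj; omega : j ≤ k)]
      ring
    have h2 : hs (β * γ) (β * δ) k = β ^ k * hs γ δ k := by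
      unfold hs
      rw [Finset.mul_sum]
      refine Finset.sum_congr rfl fun j hj => ?_
      have : j + (k - j) = k := by
        have := Finset.mem_range.1 hj
        omega
      conv_rhs => rw [← this, pow_add]
      rw [Nat.add_sub_cancel' (by have := Finset.mem_range.1 hj; omega : j ≤ k)]
      ring
    simp only [ws, gs, PowerSeries.coeff_mk, hs_succ, h1, h2]
    ring

/-- the local identity -/
theorem ws_eq (α β γ δ : ℂ) : ws α β γ δ =
    (1 - PowerSeries.C (α * β * γ * δ) * PowerSeries.X ^ 2) *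
      ((gs (α * γ) * gs (β * δ)) * (gs (α * δ) * gs (β * γ))) := by
  have ha := gs_mul (α * γ)
  have hb := gs_mul (β * δ)
  have hc := gs_mul (α * δ)
  have hd := gs_mul (β * γ)
  have h1 := ws_step α β γ δ
  have hC : (PowerSeries.C (α * β * γ * δ) : PowerSeries ℂ) = PowerSeries.C (α * δ) * PowerSeries.C (β * γ) := by
    rw [← map_mul]
    congr 1
    ring
  rw [hC]
  set A := PowerSeries.C (α * γ) * (PowerSeries.X : PowerSeries ℂ) with hA
  set B := PowerSeries.C (β * δ) * (PowerSeries.X : PowerSeries ℂ) with hB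
  set U := gs (α * γ)
  set V := gs (β * δ)
  set Y := gs (α * δ)
  set Z := gs (β * γ)
  set c := (PowerSeries.C (α * δ) : PowerSeries ℂ)
  set d := (PowerSeries.C (β * γ) : PowerSeries ℂ)
  have h2 : ws α β γ δ = U * (Y * V + Z * V - V) := by
    rw [← h1, ← mul_assoc, mul_comm U, ha, one_mul]
  have h3 : Y * V + Z * V - V = (1 - c * d * PowerSeries.X ^ 2) * (V * (Y * Z)) := by
    have e1 : Y = Y * ((1 - d * PowerSeries.X) * Z) := by rw [hd, mul_one]
    have e2 : Z = Z * ((1 - c * PowerSeries.X) * Y) := by rw [hc, mul_one]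
    have e3 : (1 : PowerSeries ℂ) = ((1 - c * PowerSeries.X) * Y) * ((1 - d * PowerSeries.X) * Z) := by
      rw [hc, hd, mul_one]
    calc Y * V + Z * V - V = Y * V + Z * V - 1 * V := by rw [one_mul]
      _ = (Y * ((1 - d * PowerSeries.X) * Z)) * V + (Z * ((1 - c * PowerSeries.X) * Y)) * V -
          (((1 - c * PowerSeries.X) * Y) * ((1 - d * PowerSeries.X) * Z)) * V := by
            rw [← e1, ← e2, ← e3]
      _ = _ := by ring
  rw [h2, h3]
  ring

/-- even geometric series: the inert case -/
noncomputable def es : PowerSeries ℂ := PowerSeries.mk fun k => if Even k then 1 else 0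

theorem es_eq : es = gs 1 * gs (-1) := by
  ext k
  rw [← hs_coeff]
  simp only [es, PowerSeries.coeff_mk]
  induction k with
  | zero => simp [hs_zero]
  | succ k ih =>
    rw [hs_succ, ← ih, one_mul]
    by_cases hk : Even k
    · rw [if_pos hk, if_neg (by rw [Nat.even_add_one]; exact not_not.2 hk), Odd.neg_one_pow (Even.add_one hk)]
      ring
    · rw [if_neg hk, if_pos (by rw [Nat.even_add_one]; exact hk), Even.neg_one_pow (by rw [Nat.even_add_one]; exact hk)]
      ring

theorem es_sq : es = (1 - PowerSeries.C 1 * PowerSeries.X ^ 2) * (es * es) := by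
  have h1 := gs_mul 1
  have h2 := gs_mul (-1)
  rw [es_eq]
  simp only [map_neg, map_one] at h1 h2 ⊢
  set U := gs 1
  set V := gs (-1)
  have : (1 - 1 * PowerSeries.X ^ 2) * (U * V * (U * V)) = ((1 - 1 * PowerSeries.X) * U) * ((1 - -1 * PowerSeries.X) * V) * (U * V) := by
    ring
  rw [this, h1, h2]
  ring

theorem gs_sq (z : ℂ) : gs z = (1 - PowerSeries.C z * PowerSeries.X) * (gs z * gs z) := by
  rw [← mul_assoc, gs_mul, one_mul]

end HC2
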