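import Pool.Agent.Lib.MP_0f5a55_nt.EY.R5b
import Pool.Agent.Lib.MP_0f5a55_nt.EY.R5c
import Pool.Agent.Lib.MP_0f5a55_nt.HC.H11

/-!
The local identity for two ring class characters.
-/

set_option autoImplicit false

open Complex MeasureTheory Set Filter Topology
open scoped Real ComplexConjugate NumberField

namespace HC2

open HC NR

variable {K : Type*} [Field K] [NumberField K]

/-- a basis 1, w with the equation of w -/
theorem quad_basis (h2 : Module.finrank ℚ K = 2) : ∃ (b : Module.Basis (Fin 2) ℤ (𝓞 K)) (c d : ℤ), b 0 = 1 ∧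
    b 1 * b 1 = (c : 𝓞 K) + (d : 𝓞 K) * b 1 ∧ NumberField.discr K = d ^ 2 + 4 * c := by
  obtain ⟨b, hb⟩ := H11_basis h2
  obtain ⟨w, hw⟩ : ∃ w, w = b 1 := ⟨_, rfl⟩
  obtain ⟨c, hc⟩ : ∃ c, c = b.repr (w * w) 0 := ⟨_, rfl⟩
  obtain ⟨d, hd⟩ : ∃ d, d = b.repr (w * w) 1 := ⟨_, rfl⟩
  have h1 : w * w = (c : 𝓞 K) + (d : 𝓞 K) * w := by
    have h := b.sum_repr (w * w)
    rw [Fin.sum_univ_two, ← hc, ← hd, zsmul_eq_mul, zsmul_eq_mul, hb, ← hw, mul_one] at h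
    exact h.symm
  have htr : ∀ z : 𝓞 K, Algebra.trace ℤ (𝓞 K) z = b.repr z 0 + b.repr (z * w) 1 := by
    intro z
    rw [Algebra.trace_eq_matrix_trace b, Matrix.trace, Fin.sum_univ_two, Matrix.diag_apply,
      Matrix.diag_apply, Algebra.leftMulMatrix_eq_repr_mul, Algebra.leftMulMatrix_eq_repr_mul, hb,
      ← hw, mul_one]
  have hr1 : b.repr 1 = Finsupp.single 0 1 := by
    rw [← hb, Module.Basis.repr_self]
  have hrw : b.repr w = Finsupp.single 1 1 := by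
    rw [hw, Module.Basis.repr_self]
  have ht1 : Algebra.trace ℤ (𝓞 K) 1 = 2 := by
    rw [htr, one_mul, hr1, hrw]
    simp
  have htw : Algebra.trace ℤ (𝓞 K) w = d := by
    rw [htr, hrw, ← hd]
    simp
  have htww : Algebra.trace ℤ (𝓞 K) (w * w) = 2 * c + d ^ 2 := by
    have h3 : w * w = c • (1 : 𝓞 K) + d • w := by
      rw [h1, zsmul_eq_mul, zsmul_eq_mul, mul_one]
    rw [h3, map_add, map_zsmul, map_zsmul, ht1, htw]
    simp only [smul_eq_mul]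
    ring
  refine ⟨b, c, d, hb, by rw [← hw]; exact h1, ?_⟩
  rw [← NumberField.discr_eq_discr K b, Algebra.discr_def, Matrix.det_fin_two]
  simp only [Algebra.traceMatrix_apply, Algebra.traceForm_apply, hb, ← hw, mul_one, one_mul]
  rw [ht1, htw, htww]
  ring

/-- ramified primes divide the discriminant -/
theorem ram_dvd (h2 : Module.finrank ℚ K = 2) {p : ℕ} (hp : p.Prime) {P : Ideal (𝓞 K)}
    (h : Ideal.span {(p : 𝓞 K)} = P * P) (hN : Ideal.absNorm P = p) : (p : ℤ) ∣ NumberField.discr K := by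
  obtain ⟨b, c, d, hb, h1, hD⟩ := quad_basis h2
  have hpP : ((p : ℤ) : 𝓞 K) ∈ P := by
    have h3 : (p : 𝓞 K) ∈ Ideal.span {(p : 𝓞 K)} := Ideal.mem_span_singleton_self _
    rw [h] at h3
    have := Ideal.mul_le_left h3
    simpa using this
  have hP1 : P ≠ ⊤ := by
    rintro rfl
    rw [Ideal.absNorm_top] at hN
    exact hp.one_lt.ne hN
  have hint : ∀ m : ℤ, (m : 𝓞 K) ∈ P → (p : ℤ) ∣ m := by
    intro m hm
    by_contra hcon
    have hc : IsCoprime m (p : ℤ) := by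
      rw [Int.isCoprime_iff_gcd_eq_one, Int.gcd_comm]
      have := (Nat.Prime.coprime_iff_not_dvd hp).2 (fun hd : p ∣ m.natAbs => hcon (Int.natCast_dvd.2 hd))
      simpa [Int.gcd] using this
    obtain ⟨u, v, huv⟩ := hc
    apply hP1
    rw [Ideal.eq_top_iff_one]
    have h3 : ((u * m + v * p : ℤ) : 𝓞 K) ∈ P := by
      push_cast
      refine P.add_mem (P.mul_mem_left _ hm) (P.mul_mem_left _ ?_)
      simpa using hpP
    rw [huv] at h3
    simpa using h3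
  -- an integer congruent to w
  obtain ⟨n, hn⟩ : ∃ n : ℤ, b 1 - (n : 𝓞 K) ∈ P := by
    have hcard : Nat.card (𝓞 K ⧸ P) = p := by rw [← hN]; rfl
    have : Fact p.Prime := ⟨hp⟩
    have hne : (1 : 𝓞 K ⧸ P) ≠ 0 := by
      intro h0
      apply hP1
      rw [Ideal.eq_top_iff_one]
      exact Ideal.Quotient.eq_zero_iff_mem.1 (by simpa using h0)
    have h3 := mem_zmultiples_of_prime_card (p := p) (G := 𝓞 K ⧸ P) hcard (g := 1) (g' := Ideal.Quotient.mk P (b 1)) hne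
    obtain ⟨n, hn⟩ := AddSubgroup.mem_zmultiples_iff.1 h3
    refine ⟨n, ?_⟩
    rw [← Ideal.Quotient.eq_zero_iff_mem, map_sub, ← hn, map_intCast, zsmul_eq_mul, mul_one, sub_self]
  obtain ⟨x, hx⟩ : ∃ x, x = b 1 - (n : 𝓞 K) := ⟨_, rfl⟩
  rw [← hx] at hn
  have hxx : x * x = ((c + n * d - n ^ 2 : ℤ) : 𝓞 K) + ((d - 2 * n : ℤ) : 𝓞 K) * x := by
    rw [hx]
    push_cast
    linear_combination h1
  have hxp : x * x ∈ Ideal.span {(p : 𝓞 K)} := by
    rw [h]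
    exact Ideal.mul_mem_mul hn hn
  have hsub : Ideal.span {(p : 𝓞 K)} ≤ P := by
    rw [h]
    exact Ideal.mul_le_left
  have hd1 : (p : ℤ) ∣ c + n * d - n ^ 2 := by
    apply hint
    have h3 : ((c + n * d - n ^ 2 : ℤ) : 𝓞 K) = x * x - ((d - 2 * n : ℤ) : 𝓞 K) * x := by rw [hxx]; ring
    rw [h3]
    exact P.sub_mem (hsub hxp) (P.mul_mem_left _ hn)
  have hxn : x ∉ Ideal.span {(p : 𝓞 K)} := by
    intro hmem
    obtain ⟨y, hy⟩ := Ideal.mem_span_singleton'.1 hmem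
    have h3 : b.repr x 1 = 1 := by
      have e : x = b 1 - n • b 0 := by rw [hx, hb, zsmul_eq_mul, mul_one]
      rw [e, map_sub, map_zsmul, Module.Basis.repr_self, Module.Basis.repr_self]
      simp
    have h4 : b.repr x 1 = (p : ℤ) * b.repr y 1 := by
      have e : x = (p : ℤ) • y := by rw [← hy, zsmul_eq_mul]; push_cast; ring
      rw [e, map_zsmul]
      simp
    rw [h3] at h4
    have h5 : (p : ℤ) ∣ 1 := ⟨_, h4⟩
    have h6 := Int.le_of_dvd one_pos h5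
    have := hp.one_lt
    omega
  have hd2 : (p : ℤ) ∣ d - 2 * n := by
    by_contra hcon
    have hc : IsCoprime (d - 2 * n) (p : ℤ) := by
      rw [Int.isCoprime_iff_gcd_eq_one, Int.gcd_comm]
      have := (Nat.Prime.coprime_iff_not_dvd hp).2
        (fun hd : p ∣ (d - 2 * n).natAbs => hcon (Int.natCast_dvd.2 hd))
      simpa [Int.gcd] using this
    obtain ⟨u, v, huv⟩ := hc
    apply hxn
    have h3 : ((d - 2 * n : ℤ) : 𝓞 K) * x ∈ Ideal.span {(p : 𝓞 K)} := by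
      have e : ((d - 2 * n : ℤ) : 𝓞 K) * x = x * x - ((c + n * d - n ^ 2 : ℤ) : 𝓞 K) := by rw [hxx]; ring
      rw [e]
      refine Ideal.sub_mem _ hxp ?_
      obtain ⟨m, hm⟩ := hd1
      rw [hm]
      push_cast
      exact Ideal.mul_mem_right _ _ (Ideal.mem_span_singleton_self _)
    have e : x = (u : 𝓞 K) * (((d - 2 * n : ℤ) : 𝓞 K) * x) + ((v : 𝓞 K) * x) * (p : 𝓞 K) := by
      have h4 := congrArg (fun z : ℤ => (z : 𝓞 K)) huv
      push_cast at h4 ⊢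
      linear_combination (-x) * h4
    rw [e]
    exact Ideal.add_mem _ (Ideal.mul_mem_left _ _ h3) (Ideal.mul_mem_left _ _ (Ideal.mem_span_singleton_self _))
  rw [hD]
  have e : d ^ 2 + 4 * c = (d - 2 * n) ^ 2 + 4 * (c + n * d - n ^ 2) := by ring
  rw [e]
  exact dvd_add (Dvd.dvd.pow hd2 two_ne_zero) (Dvd.dvd.mul_left hd1 4)

/-- products of ring class characters -/
theorem rc_prod {f : ℕ} {ψ₁ ψ₂ : Ideal (𝓞 K) →*₀ ℂ} (h1 : RC f ψ₁) (h1' : RC f ψ₂) :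
    ∃ η₁ η₂ : Ideal (𝓞 K) →*₀ ℂ, RC f η₁ ∧ RC f η₂ ∧ (∀ I, η₁ I = ψ₁ I * ψ₂ I) ∧ ∀ I, η₂ I = ψ₁ I * conj (ψ₂ I) := by
  let η₁ : Ideal (𝓞 K) →*₀ ℂ :=
    { toFun := fun I => ψ₁ I * ψ₂ I
      map_zero' := by
        show ψ₁ 0 * ψ₂ 0 = 0
        rw [map_zero, zero_mul]
      map_one' := by
        show ψ₁ 1 * ψ₂ 1 = 1
        rw [map_one, map_one, one_mul]
      map_mul' := fun I J => by
        show ψ₁ (I * J) * ψ₂ (I * J) = ψ₁ I * ψ₂ I * (ψ₁ J * ψ₂ J)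
        rw [map_mul, map_mul]
        ring }
  let η₂ : Ideal (𝓞 K) →*₀ ℂ :=
    { toFun := fun I => ψ₁ I * conj (ψ₂ I)
      map_zero' := by
        show ψ₁ 0 * conj (ψ₂ 0) = 0
        rw [map_zero, zero_mul]
      map_one' := by
        show ψ₁ 1 * conj (ψ₂ 1) = 1
        rw [map_one, map_one, one_mul, map_one]
      map_mul' := fun I J => by
        show ψ₁ (I * J) * conj (ψ₂ (I * J)) = ψ₁ I * conj (ψ₂ I) * (ψ₁ J * conj (ψ₂ J))
        rw [map_mul, map_mul, map_mul]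
        ring }
  have e1 : ∀ I, η₁ I = ψ₁ I * ψ₂ I := fun _ => rfl
  have e2 : ∀ I, η₂ I = ψ₁ I * conj (ψ₂ I) := fun _ => rfl
  refine ⟨η₁, η₂, ⟨h1.pos, ?_, ?_, ?_⟩, ⟨h1.pos, ?_, ?_, ?_⟩, e1, e2⟩
  · intro I hI
    rw [e1, norm_mul, h1.cop I hI, h1'.cop I hI, one_mul]
  · intro I hI
    rw [e1, h1.ncop I hI, zero_mul]
  · intro α hα hc
    rw [e1, h1.triv α hα hc, h1'.triv α hα hc, one_mul]
  · intro I hI
    rw [e2, norm_mul, Complex.norm_conj, h1.cop I hI, h1'.cop I hI, one_mul]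
  · intro I hI
    rw [e2, h1.ncop I hI, zero_mul]
  · intro α hα hc
    rw [e2, h1.triv α hα hc, h1'.triv α hα hc, map_one, one_mul]

/-- the generating series at a prime -/
noncomputable def ser (ψ : Ideal (𝓞 K) →*₀ ℂ) (p : ℕ) : PowerSeries ℂ := PowerSeries.mk fun k => ac ψ (p ^ k)

theorem nrm_le {f : ℕ} {ψ : Ideal (𝓞 K) →*₀ ℂ} (h : RC f ψ) (I : Ideal (𝓞 K)) : ‖ψ I‖ ≤ 1 := by
  by_cases hI : Cop f I
  · exact (h.cop I hI).le
  · rw [h.ncop I hI]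
    simp

theorem conj_of {a b : ℂ} (ha : ‖a‖ ≤ 1) (hb : ‖b‖ ≤ 1) (hab : a * b = 1) : conj a = b := by
  have h1 : ‖a‖ * ‖b‖ = 1 := by rw [← norm_mul, hab, norm_one]
  have h2 : ‖a‖ = 1 := by
    apply le_antisymm ha
    nlinarith [norm_nonneg a, norm_nonneg b]
  have h3 : a * conj a = 1 := by
    rw [Complex.mul_conj, Complex.normSq_eq_norm_sq, h2]
    simp
  have ha0 : a ≠ 0 := by
    rintro rfl
    simp at hab
  exact mul_left_cancel₀ ha0 (h3.trans hab.symm)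

/-- the local identity -/
theorem local_id (h2 : Module.finrank ℚ K = 2) {f : ℕ} {ψ₁ ψ₂ η₁ η₂ : Ideal (𝓞 K) →*₀ ℂ} (h1 : RC f ψ₁) (h1' : RC f ψ₂)
    (g1 : RC f η₁) (g2 : RC f η₂)
    (e1 : ∀ I, η₁ I = ψ₁ I * ψ₂ I) (e2 : ∀ I, η₂ I = ψ₁ I * conj (ψ₂ I)) (p : ℕ) (hp : p.Prime) :
    ∃ c₁ c₂ : ℂ, ‖c₁‖ ≤ 1 ∧ ‖c₂‖ ≤ 1 ∧ ((p : ℤ) ∣ NumberField.discr K ∨ c₁ = 0) ∧
      (PowerSeries.mk fun k => ac ψ₁ (p ^ k) * ac ψ₂ (p ^ k)) =
        (1 + PowerSeries.C c₁ * PowerSeries.X + PowerSeries.C c₂ * PowerSeries.X ^ 2) * (ser η₁ p * ser η₂ p) := by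
  by_cases hc : p.Coprime f
  swap
  · have hz : ∀ {ψ : Ideal (𝓞 K) →*₀ ℂ}, RC f ψ → ∀ k : ℕ, ac ψ (p ^ k) = if k = 0 then 1 else 0 := by
      intro ψ hψ k
      by_cases hk : k = 0
      · rw [if_pos hk, hk, pow_zero, hψ.ac_one]
      · rw [if_neg hk]
        refine RC.ac_ncop h2 hψ (pow_pos hp.pos k) ?_
        rwa [Nat.coprime_pow_left_iff (Nat.pos_of_ne_zero hk)]
    have hs1 : ∀ {ψ : Ideal (𝓞 K) →*₀ ℂ}, RC f ψ → ser ψ p = 1 := by
      intro ψ hψ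
      ext k
      rw [PowerSeries.coeff_one]
      simp only [ser, PowerSeries.coeff_mk, hz hψ]
    refine ⟨0, 0, by simp, by simp, Or.inr rfl, ?_⟩
    rw [hs1 g1, hs1 g2]
    ext k
    simp only [PowerSeries.coeff_mk, hz h1, hz h1', map_zero, zero_mul, add_zero, mul_one, PowerSeries.coeff_one]
    by_cases hk : k = 0 <;> simp [hk]
  have hC : Cop f (Ideal.span {(p : 𝓞 K)}) := by
    refine (cop_iff h2 h1.pos).2 ⟨?_, ?_⟩
    · intro h0
      have := H13_norm_nat (K := K) h2 p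
      rw [h0, Ideal.absNorm_bot] at this
      exact absurd this.symm (pow_ne_zero 2 hp.ne_zero)
    · rw [H13_norm_nat (K := K) h2 p]
      exact hc.pow_left 2
  have hO : Ord f (p : 𝓞 K) := ⟨p, by simp⟩
  have ht1 := h1.triv _ hO hC
  have ht1' := h1'.triv _ hO hC
  rcases loc3 (K := K) h2 p hp with ⟨P, Q, hPQ, hs⟩ | ⟨P, hPP, hN, hs⟩ | hs
  · rw [hPQ, map_mul] at ht1 ht1'
    have k1 := conj_of (nrm_le h1' P) (nrm_le h1' Q) ht1'
    have k2 := conj_of (nrm_le h1' Q) (nrm_le h1' P) (by rw [mul_comm]; exact ht1')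
    have hser : ∀ ψ : Ideal (𝓞 K) →*₀ ℂ, ser ψ p = gs (ψ P) * gs (ψ Q) := by
      intro ψ
      ext k
      rw [← hs_coeff]
      simp only [ser, PowerSeries.coeff_mk]
      exact hs ψ k
    refine ⟨0, -1, by simp, by simp, Or.inr rfl, ?_⟩
    have h3 : (PowerSeries.mk fun k => ac ψ₁ (p ^ k) * ac ψ₂ (p ^ k)) = ws (ψ₁ P) (ψ₁ Q) (ψ₂ P) (ψ₂ Q) := by
      ext k
      simp only [ws, PowerSeries.coeff_mk]
      rw [hs ψ₁ k, hs ψ₂ k]
      rfl
    have h4 : ψ₁ P * ψ₁ Q * ψ₂ P * ψ₂ Q = 1 := by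
      rw [mul_assoc (ψ₁ P * ψ₁ Q), ht1, ht1', one_mul]
    rw [h3, ws_eq, h4, hser η₁, hser η₂, e1, e1, e2, e2, k1, k2]
    simp only [map_zero, zero_mul, add_zero, map_neg, map_one, neg_mul, ← sub_eq_add_neg]
  · rw [hPP, map_mul] at ht1 ht1'
    have k1 := conj_of (nrm_le h1' P) (nrm_le h1' P) ht1'
    have hser : ∀ ψ : Ideal (𝓞 K) →*₀ ℂ, ser ψ p = gs (ψ P) := by
      intro ψ
      ext k
      simp only [ser, gs, PowerSeries.coeff_mk]
      exact hs ψ k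
    refine ⟨-(ψ₁ P * ψ₂ P), 0, ?_, by simp, Or.inl (ram_dvd h2 hp hPP hN), ?_⟩
    · rw [norm_neg, norm_mul]
      exact mul_le_one₀ (nrm_le h1 P) (norm_nonneg _) (nrm_le h1' P)
    · have h3 : (PowerSeries.mk fun k => ac ψ₁ (p ^ k) * ac ψ₂ (p ^ k)) = gs (ψ₁ P * ψ₂ P) := by
        ext k
        simp only [gs, PowerSeries.coeff_mk]
        rw [hs ψ₁ k, hs ψ₂ k, mul_pow]
      rw [h3, hser η₁, hser η₂, e1, e2, k1]
      conv_lhs => rw [gs_sq]
      simp only [map_zero, zero_mul, add_zero, map_neg, neg_mul, ← sub_eq_add_neg]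
  · have hser : ∀ {ψ : Ideal (𝓞 K) →*₀ ℂ}, RC f ψ → ∀ k, ac ψ (p ^ k) = if Even k then 1 else 0 := by
      intro ψ hψ k
      rw [hs ψ k, hψ.triv _ hO hC, one_pow]
    have hse : ∀ {ψ : Ideal (𝓞 K) →*₀ ℂ}, RC f ψ → ser ψ p = es := by
      intro ψ hψ
      ext k
      simp only [ser, es, PowerSeries.coeff_mk]
      exact hser hψ k
    refine ⟨0, -1, by simp, by simp, Or.inr rfl, ?_⟩
    have h3 : (PowerSeries.mk fun k => ac ψ₁ (p ^ k) * ac ψ₂ (p ^ k)) = es := by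
      ext k
      simp only [es, PowerSeries.coeff_mk]
      rw [hser h1 k, hser h1' k]
      by_cases hk : Even k <;> simp [hk]
    rw [h3, hse g1, hse g2]
    conv_lhs => rw [es_sq]
    simp only [map_zero, zero_mul, add_zero, map_neg, map_one, neg_mul, ← sub_eq_add_neg]

end HC2
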