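import Mathlib
import Pool.Agent.Lib.MP_0f5a55_nt.NH.MD

/-!
Multiplicative functions with prescribed values at the prime powers, Dirichlet convolution at prime powers, and a bound
for sums of functions supported on cube-free numbers.
-/

set_option autoImplicit false

open Complex Filter Topology
open scoped Real

namespace HC2

open NH

/-- the values at the powers of p -/
noncomputable def Hv (c₁ c₂ : ℕ → ℂ) (p r : ℕ) : ℂ := if r = 0 then 1 else if r = 1 then c₁ p else if r = 2 then c₂ p else 0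

/-- the multiplicative function -/
noncomputable def hf (c₁ c₂ : ℕ → ℂ) : ArithmeticFunction ℂ :=
  ⟨fun n => if n = 0 then 0 else n.factorization.prod (fun p r => Hv c₁ c₂ p r), by simp⟩

theorem Hv_zero (c₁ c₂ : ℕ → ℂ) (p : ℕ) : Hv c₁ c₂ p 0 = 1 := by simp [Hv]

theorem hf_mult (c₁ c₂ : ℕ → ℂ) : (hf c₁ c₂).IsMultiplicative := by
  rw [ArithmeticFunction.IsMultiplicative.iff_ne_zero]
  constructor
  · show (if (1 : ℕ) = 0 then (0 : ℂ)
      else (1 : ℕ).factorization.prod (fun p r => Hv c₁ c₂ p r)) = _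
    simp
  · intro m n hm hn hmn
    show (if m * n = 0 then (0 : ℂ)
      else (m * n).factorization.prod (fun p r => Hv c₁ c₂ p r))
      = (if m = 0 then (0 : ℂ)
      else m.factorization.prod (fun p r => Hv c₁ c₂ p r))
      * (if n = 0 then (0 : ℂ)
      else n.factorization.prod (fun p r => Hv c₁ c₂ p r))
    rw [if_neg (mul_ne_zero hm hn), if_neg hm, if_neg hn,
      Nat.factorization_mul_of_coprime hmn,
      Finsupp.prod_add_index_of_disjoint]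
    exact hmn.disjoint_primeFactors

theorem hf_pp (c₁ c₂ : ℕ → ℂ) {p : ℕ} (hp : p.Prime) (r : ℕ) : hf c₁ c₂ (p ^ r) = Hv c₁ c₂ p r := by
  have h0 : p ^ r ≠ 0 := pow_ne_zero _ hp.ne_zero
  show (if p ^ r = 0 then (0 : ℂ)
    else (p ^ r).factorization.prod (fun p r => Hv c₁ c₂ p r)) = _
  rw [if_neg h0, hp.factorization_pow, Finsupp.prod_single_index]
  exact Hv_zero _ _ _

/-- convolution at prime powers -/
theorem conv_pp (F G : ArithmeticFunction ℂ) {p : ℕ} (hp : p.Prime) (r : ℕ) : (F * G) (p ^ r) =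
    PowerSeries.coeff r ((PowerSeries.mk fun k => F (p ^ k)) * (PowerSeries.mk fun k => G (p ^ k))) := by
  rw [ArithmeticFunction.mul_apply, Nat.sum_divisorsAntidiagonal
      (f := fun x y => F x * G y), Nat.sum_divisors_prime_pow hp, PowerSeries.coeff_mul,
      Finset.Nat.sum_antidiagonal_eq_sum_range_succ_mk]
  refine Finset.sum_congr rfl fun k hk => ?_
  have hk' : k ≤ r := Nat.lt_succ_iff.1 (Finset.mem_range.1 hk)
  rw [Nat.pow_div hk' hp.pos]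
  simp only [PowerSeries.coeff_mk]

theorem Hv_ser (c₁ c₂ : ℕ → ℂ) (p : ℕ) : (PowerSeries.mk fun k => Hv c₁ c₂ p k) =
    1 + PowerSeries.C (c₁ p) * PowerSeries.X + PowerSeries.C (c₂ p) * PowerSeries.X ^ 2 := by
  ext k
  rw [map_add, map_add, PowerSeries.coeff_C_mul, PowerSeries.coeff_C_mul, PowerSeries.coeff_one,
    PowerSeries.coeff_X, PowerSeries.coeff_X_pow, PowerSeries.coeff_mk]
  unfold Hv
  rcases Nat.lt_or_ge k 3 with hk | hk
  · interval_cases k <;> simp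
  · have h0 : k ≠ 0 := by omega
    have h1 : k ≠ 1 := by omega
    have h2 : k ≠ 2 := by omega
    simp [h0, h1, h2]

/-- the weighted absolute values are bounded -/
theorem hf_sum {c₁ c₂ : ℕ → ℂ} (h1 : ∀ p, ‖c₁ p‖ ≤ 1) (h2 : ∀ p, ‖c₂ p‖ ≤ 1) {D : ℤ} (hD : D ≠ 0)
    (h3 : ∀ p : ℕ, p.Prime → (p : ℤ) ∣ D ∨ c₁ p = 0) : ∃ B : ℝ, 0 ≤ B ∧ ∀ x : ℕ,
      ∑ n ∈ Finset.Icc 1 x, ‖hf c₁ c₂ n‖ * (n : ℝ) ^ (-(7 / 8) : ℝ) ≤ B := by
  classical
  set g : ℕ → ℝ := fun n => ‖hf c₁ c₂ n‖ * (n : ℝ) ^ (-(7 / 8) : ℝ) with hg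
  have g0 : ∀ n, 0 ≤ g n := fun n => mul_nonneg (norm_nonneg _) (Real.rpow_nonneg (Nat.cast_nonneg _) _)
  have g1 : g 1 = 1 := by
    rw [hg]
    simp only [(hf_mult c₁ c₂).map_one, norm_one, Nat.cast_one, Real.one_rpow, one_mul]
  have gm : ∀ {m n : ℕ}, Nat.Coprime m n → g (m * n) = g m * g n := by
    intro m n hmn
    rw [hg]
    simp only []
    rw [(hf_mult c₁ c₂).map_mul_of_coprime hmn, norm_mul, Nat.cast_mul,
      Real.mul_rpow (Nat.cast_nonneg _) (Nat.cast_nonneg _)]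
    ring
  have gz : ∀ p : ℕ, p.Prime → ∀ k, k ∉ Finset.range 3 → g (p ^ k) = 0 := by
    intro p hp k hk
    rw [Finset.mem_range, not_lt] at hk
    have : hf c₁ c₂ (p ^ k) = 0 := by
      rw [hf_pp c₁ c₂ hp]
      unfold Hv
      rw [if_neg (by omega), if_neg (by omega), if_neg (by omega)]
    rw [hg]
    simp only [this, norm_zero, zero_mul]
  have gs : ∀ {p : ℕ}, p.Prime → Summable (fun n : ℕ => ‖g (p ^ n)‖) := by
    intro p hp
    refine summable_of_ne_finset_zero (s := Finset.range 3) fun k hk => ?_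
    rw [gz p hp k hk, norm_zero]
  have gt : ∀ p : ℕ, p.Prime → ∑' k : ℕ, g (p ^ k) = 1 + (g p + g (p ^ 2)) := by
    intro p hp
    rw [tsum_eq_sum (gz p hp), Finset.sum_range_succ, Finset.sum_range_succ, Finset.sum_range_succ,
      Finset.sum_range_zero, pow_zero, pow_one, g1]
    ring
  have b1 : ∀ p : ℕ, p.Prime → g p ≤ if (p : ℤ) ∣ D then 1 else 0 := by
    intro p hp
    have e : hf c₁ c₂ p = c₁ p := by
      have := hf_pp c₁ c₂ hp 1
      rw [pow_one] at this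
      rw [this]
      simp [Hv]
    by_cases hpD : (p : ℤ) ∣ D
    · rw [if_pos hpD]
      rw [hg]
      simp only [e]
      have hp1 : (1 : ℝ) ≤ p := by exact_mod_cast hp.one_lt.le
      have : (p : ℝ) ^ (-(7 / 8) : ℝ) ≤ 1 := Real.rpow_le_one_of_one_le_of_nonpos hp1 (by norm_num)
      exact mul_le_one₀ (h1 p) (Real.rpow_nonneg (Nat.cast_nonneg _) _) this
    · rw [if_neg hpD]
      have := (h3 p hp).resolve_left hpD
      rw [hg]
      simp only [e, this, norm_zero, zero_mul, le_refl]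
  have b2 : ∀ p : ℕ, p.Prime → g (p ^ 2) ≤ (p : ℝ) ^ (-(7 / 4) : ℝ) := by
    intro p hp
    rw [hg]
    simp only [hf_pp c₁ c₂ hp]
    have e : Hv c₁ c₂ p 2 = c₂ p := by simp [Hv]
    have e2 : ((p ^ 2 : ℕ) : ℝ) ^ (-(7 / 8) : ℝ) = (p : ℝ) ^ (-(7 / 4) : ℝ) := by
      rw [Nat.cast_pow, ← Real.rpow_natCast, ← Real.rpow_mul (Nat.cast_nonneg _)]
      norm_num
    rw [e, e2]
    exact mul_le_of_le_one_left (Real.rpow_nonneg (Nat.cast_nonneg _) _) (h2 p)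
  have hS : Summable (fun n : ℕ => (n : ℝ) ^ (-(7 / 4) : ℝ)) := Real.summable_nat_rpow.mpr (by norm_num)
  set Bs : ℝ := (D.natAbs : ℝ) + ∑' n : ℕ, (n : ℝ) ^ (-(7 / 4) : ℝ) with hBs
  refine ⟨Real.exp Bs, (Real.exp_pos _).le, fun x => ?_⟩
  obtain ⟨hsm, hhs⟩ := EulerProduct.summable_and_hasSum_smoothNumbers_prod_primesBelow_tsum g1 gm gs (x + 1)
  have hle : ∑ n ∈ Finset.Icc 1 x, g n ≤ ∏ p ∈ (x + 1).primesBelow, ∑' n : ℕ, g (p ^ n) := by
    have hmem : ∀ n ∈ Finset.Icc 1 x, n ∈ (x + 1).smoothNumbers := by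
      intro n hn
      have hn1 := Finset.mem_Icc.1 hn
      rw [Nat.mem_smoothNumbers']
      intro p hp hpn
      have := Nat.le_of_dvd (by omega) hpn
      omega
    have h4 : ∑ n ∈ Finset.Icc 1 x, g n = ∑ n ∈ (Finset.Icc 1 x).attach, g n := (Finset.sum_attach _ _).symm
    let ι : {n // n ∈ Finset.Icc 1 x} ↪ (x + 1).smoothNumbers :=
      ⟨fun n => ⟨n.1, hmem n.1 n.2⟩, fun a b hab => Subtype.ext (congrArg (fun z : (x + 1).smoothNumbers => (z : ℕ)) hab)⟩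
    have h5 : ∑ n ∈ (Finset.Icc 1 x).attach, g n = ∑ m ∈ (Finset.Icc 1 x).attach.map ι, g (m : ℕ) := by
      rw [Finset.sum_map]
      rfl
    rw [h4, h5]
    exact sum_le_hasSum _ (fun m _ => g0 m) hhs
  refine hle.trans ?_
  have h6 : ∏ p ∈ (x + 1).primesBelow, ∑' n : ℕ, g (p ^ n) ≤
      ∏ p ∈ (x + 1).primesBelow, Real.exp (g p + g (p ^ 2)) := by
    refine Finset.prod_le_prod (fun p _ => tsum_nonneg fun n => g0 _) fun p hp => ?_
    have hpp := Nat.prime_of_mem_primesBelow hp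
    rw [gt p hpp, add_comm]
    exact Real.add_one_le_exp _
  refine h6.trans ?_
  rw [← Real.exp_sum]
  apply Real.exp_le_exp.2
  rw [Finset.sum_add_distrib, hBs]
  refine add_le_add ?_ ?_
  · calc ∑ p ∈ (x + 1).primesBelow, g p ≤ ∑ p ∈ (x + 1).primesBelow, (if (p : ℤ) ∣ D then (1 : ℝ) else 0) :=
          Finset.sum_le_sum fun p hp => b1 p (Nat.prime_of_mem_primesBelow hp)
      _ = (((x + 1).primesBelow.filter (fun p : ℕ => (p : ℤ) ∣ D)).card : ℝ) := by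
          rw [Finset.sum_boole]
      _ ≤ (D.natAbs : ℝ) := by
          have hsub : (x + 1).primesBelow.filter (fun p : ℕ => (p : ℤ) ∣ D) ⊆ Finset.Icc 1 D.natAbs := by
            intro p hp
            obtain ⟨k1, k2⟩ := Finset.mem_filter.1 hp
            have hpp := Nat.prime_of_mem_primesBelow k1
            rw [Finset.mem_Icc]
            exact ⟨hpp.one_lt.le, Nat.le_of_dvd (Int.natAbs_pos.2 hD) (Int.natCast_dvd.1 k2)⟩
          have := Finset.card_le_card hsub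
          rw [Nat.card_Icc, Nat.add_sub_cancel] at this
          exact_mod_cast this
  · calc ∑ p ∈ (x + 1).primesBelow, g (p ^ 2) ≤ ∑ p ∈ (x + 1).primesBelow, (p : ℝ) ^ (-(7 / 4) : ℝ) :=
          Finset.sum_le_sum fun p hp => b2 p (Nat.prime_of_mem_primesBelow hp)
      _ ≤ ∑' n : ℕ, (n : ℝ) ^ (-(7 / 4) : ℝ) :=
          hS.sum_le_tsum _ fun n _ => Real.rpow_nonneg (Nat.cast_nonneg _) _

/-- sums of a convolution with h -/
theorem hf_conv {c₁ c₂ : ℕ → ℂ} {B : ℝ} (hB : ∀ x : ℕ, ∑ n ∈ Finset.Icc 1 x, ‖hf c₁ c₂ n‖ * (n : ℝ) ^ (-(7 / 8) : ℝ) ≤ B)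
    {t : ℕ → ℂ} {C : ℝ} (hC : 0 ≤ C) (ht : ∀ x : ℕ, 1 ≤ x → ‖∑ n ∈ Finset.Icc 1 x, t n‖ ≤ C * (x : ℝ) ^ (7 / 8 : ℝ)) (x : ℕ) :
    ‖∑ n ∈ Finset.Icc 1 x, ∑ p ∈ n.divisorsAntidiagonal, hf c₁ c₂ p.1 * t p.2‖ ≤ C * B * (x : ℝ) ^ (7 / 8 : ℝ) := by
  have e : ∑ n ∈ Finset.Icc 1 x, ∑ p ∈ n.divisorsAntidiagonal, hf c₁ c₂ p.1 * t p.2 =
      ∑ m ∈ Finset.Icc 1 x, hf c₁ c₂ m * ∑ k ∈ Finset.Icc 1 (x / m), t k := by
    simp_rw [Finset.mul_sum]
    rw [Finset.sum_sigma', Finset.sum_sigma']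
    refine Finset.sum_bij' (fun a _ => ⟨a.2.1, a.2.2⟩) (fun a _ => ⟨a.1 * a.2, (a.1, a.2)⟩) ?_ ?_ ?_ ?_ ?_
    · rintro ⟨n, p, q⟩ h
      simp only [Finset.mem_sigma, Finset.mem_Icc, Nat.mem_divisorsAntidiagonal] at h ⊢
      obtain ⟨⟨h1, h2⟩, h3, h4⟩ := h
      have hp : 0 < p := Nat.pos_of_ne_zero (by rintro rfl; simp at h3; omega)
      have hq : 0 < q := Nat.pos_of_ne_zero (by rintro rfl; simp at h3; omega)
      refine ⟨⟨hp, ?_⟩, hq, ?_⟩
      · have : p ≤ p * q := Nat.le_mul_of_pos_right _ hq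
        omega
      · rw [Nat.le_div_iff_mul_le hp, mul_comm]
        omega
    · rintro ⟨m, k⟩ h
      simp only [Finset.mem_sigma, Finset.mem_Icc, Nat.mem_divisorsAntidiagonal] at h ⊢
      obtain ⟨⟨h1, h2⟩, h3, h4⟩ := h
      have h5 := (Nat.le_div_iff_mul_le h1).1 h4
      have h6 : 0 < m * k := Nat.mul_pos h1 h3
      refine ⟨⟨h6, by rw [mul_comm]; exact h5⟩, trivial, h6.ne'⟩
    · rintro ⟨n, p, q⟩ h
      simp only [Finset.mem_sigma, Finset.mem_Icc, Nat.mem_divisorsAntidiagonal] at h ⊢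
      obtain ⟨-, h3, -⟩ := h
      subst h3
      rfl
    · rintro ⟨m, k⟩ h
      rfl
    · rintro ⟨n, p, q⟩ h
      rfl
  rw [e]
  refine (norm_sum_le _ _).trans ?_
  have h1 : ∀ m ∈ Finset.Icc 1 x, ‖hf c₁ c₂ m * ∑ k ∈ Finset.Icc 1 (x / m), t k‖ ≤
      (C * (x : ℝ) ^ (7 / 8 : ℝ)) * (‖hf c₁ c₂ m‖ * (m : ℝ) ^ (-(7 / 8) : ℝ)) := by
    intro m hm
    obtain ⟨hm1, hm2⟩ := Finset.mem_Icc.1 hm
    have hm0 : (0 : ℝ) < m := by exact_mod_cast hm1
    have h2 : 1 ≤ x / m := Nat.div_pos hm2 hm1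
    have h3 := ht _ h2
    have h4 : ((x / m : ℕ) : ℝ) ^ (7 / 8 : ℝ) ≤ (x : ℝ) ^ (7 / 8 : ℝ) * (m : ℝ) ^ (-(7 / 8) : ℝ) := by
      rw [Real.rpow_neg hm0.le, ← div_eq_mul_inv, ← Real.div_rpow (Nat.cast_nonneg _) hm0.le]
      exact Real.rpow_le_rpow (Nat.cast_nonneg _) Nat.cast_div_le (by norm_num)
    rw [norm_mul]
    calc ‖hf c₁ c₂ m‖ * ‖∑ k ∈ Finset.Icc 1 (x / m), t k‖ ≤
          ‖hf c₁ c₂ m‖ * (C * ((x : ℝ) ^ (7 / 8 : ℝ) * (m : ℝ) ^ (-(7 / 8) : ℝ))) :=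
          mul_le_mul_of_nonneg_left (h3.trans (mul_le_mul_of_nonneg_left h4 hC)) (norm_nonneg _)
      _ = _ := by ring
  refine (Finset.sum_le_sum h1).trans ?_
  rw [← Finset.mul_sum]
  have h7 : 0 ≤ C * (x : ℝ) ^ (7 / 8 : ℝ) := mul_nonneg hC (Real.rpow_nonneg (Nat.cast_nonneg _) _)
  calc (C * (x : ℝ) ^ (7 / 8 : ℝ)) * ∑ i ∈ Finset.Icc 1 x, ‖hf c₁ c₂ i‖ * (i : ℝ) ^ (-(7 / 8) : ℝ) ≤
        (C * (x : ℝ) ^ (7 / 8 : ℝ)) * B := mul_le_mul_of_nonneg_left (hB x) h7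
    _ = _ := by ring

end HC2
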